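import Pool.Agent.U196.SO.Stm
import Pool.Agent.Q121.UM.LIT

/-!
# Project SO (helper196): the horizontal integral of the argument (second proof of package FTC)
-/

set_option autoImplicit false

namespace Pool.Agent.U196.SO

open Filter Topology MeasureTheory Complex Set
open Pool.Agent.Q97.UM
open Pool.Agent.Q121.UM (mu box_int hd_log cont_mk_right cont_mk_left)
open Pool.Agent.U761.SZ (AI)

noncomputable section

lemma zeros_countable : {z : ℂ | riemannZeta z = 0}.Countable := by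
  have h2 : {z : ℂ | riemannZeta z = 0} ⊆ ⋃ n : ℕ, (Metric.closedBall (0 : ℂ) n ∩ riemannZetaZeros) := by
    intro z hz
    obtain ⟨n, hn⟩ := exists_nat_ge ‖z‖
    exact mem_iUnion.2 ⟨n, by simpa using hn, hz⟩
  refine Countable.mono h2 (countable_iUnion fun n => ?_)
  exact ((isCompact_closedBall (0 : ℂ) n).inter_riemannZetaZeros_finite).countable

lemma ord_ne_top (s : ℂ) : analyticOrderAt riemannZeta s ≠ ⊤ := by
  intro h
  have h1 := analyticOrderAt_eq_top.1 h
  have h3 : volume {z : ℂ | riemannZeta z = 0} = 0 := zeros_countable.measure_zero _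
  have h4 : 0 < volume {z : ℂ | riemannZeta z = 0} := MeasureTheory.Measure.measure_pos_of_mem_nhds volume h1
  exact h4.ne' h3

lemma zeta_an {s : ℂ} (hs : s.im ≠ 0) : AnalyticAt ℂ riemannZeta s := by
  have h1 : s ≠ 1 := by
    intro h
    rw [h] at hs
    simp at hs
  rw [Complex.analyticAt_iff_eventually_differentiableAt]
  filter_upwards [isOpen_compl_singleton.mem_nhds h1] with z hz
  exact differentiableAt_riemannZeta hz

/-- `log|ζ|` is integrable on horizontal segments -/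
lemma log_int (u : ℝ) (hu : 100 ≤ u) : IntervalIntegrable (fun x : ℝ => Real.log ‖riemannZeta ⟨x, u⟩‖) volume (1 / 2) (3 / 2) := by
  have h1 : MeromorphicOn (fun x : ℝ => riemannZeta ⟨x, u⟩) (uIcc (1 / 2) (3 / 2)) := by
    intro x _
    have h2 : AnalyticAt ℝ riemannZeta ((x : ℂ) + u * I) := by
      have := (zeta_an (s := (x : ℂ) + u * I) (by simp; linarith)).restrictScalars (𝕜 := ℝ)
      exact this
    have h3 : AnalyticAt ℝ (fun x : ℝ => (x : ℂ) + u * I) x := by
      have : AnalyticAt ℝ (fun x : ℝ => (x : ℂ)) x := Complex.ofRealCLM.analyticAt x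
      exact this.add analyticAt_const
    have h4 : AnalyticAt ℝ (fun x : ℝ => riemannZeta ((x : ℂ) + u * I)) x := AnalyticAt.fun_comp (g := riemannZeta) h2 h3
    have e : (fun x : ℝ => riemannZeta ⟨x, u⟩) = fun x : ℝ => riemannZeta ((x : ℂ) + u * I) := by
      funext x
      congr 1
      apply Complex.ext <;> simp
    rw [e]
    exact h4.meromorphicAt
  exact h1.intervalIntegrable_log_norm

/-- the inner integral -/
lemma inner {x u : ℝ} (hu : 100 ≤ u) (h0 : ∀ v ∈ Icc (100 : ℝ) u, riemannZeta ⟨x, v⟩ ≠ 0) :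
    ∫ v in (100 : ℝ)..u, (deriv riemannZeta ⟨x, v⟩ / riemannZeta ⟨x, v⟩).im =
      Real.log ‖riemannZeta ⟨x, 100⟩‖ - Real.log ‖riemannZeta ⟨x, u⟩‖ := by
  have hd : ∀ v ∈ uIcc (100 : ℝ) u, HasDerivAt (fun v => Real.log ‖riemannZeta ⟨x, v⟩‖)
      (-(deriv riemannZeta ⟨x, v⟩ / riemannZeta ⟨x, v⟩).im) v := by
    intro v hv
    rw [uIcc_of_le hu] at hv
    have h1 : HasDerivAt riemannZeta (deriv riemannZeta ⟨x, v⟩) ⟨x, v⟩ :=
      (zeta_an (s := ⟨x, v⟩) (by show v ≠ 0; linarith [hv.1])).differentiableAt.hasDerivAt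
    have h2 : HasDerivAt (fun v : ℝ => (⟨x, v⟩ : ℂ)) I v := by
      have e : (fun v : ℝ => (⟨x, v⟩ : ℂ)) = fun v : ℝ => (x : ℂ) + (v : ℂ) * I := by
        funext v
        apply Complex.ext <;> simp
      rw [e]
      have := ((Complex.ofRealCLM.hasDerivAt (x := v)).mul_const I).const_add (x : ℂ)
      simpa using this
    have h3 : HasDerivAt (fun v : ℝ => riemannZeta ⟨x, v⟩) (deriv riemannZeta ⟨x, v⟩ * I) v := h1.comp v h2
    have h4 := hd_log h3 (h0 v hv)
    have e : (deriv riemannZeta ⟨x, v⟩ * I / riemannZeta ⟨x, v⟩).re = -(deriv riemannZeta ⟨x, v⟩ / riemannZeta ⟨x, v⟩).im := by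
      rw [mul_div_right_comm]
      simp
    rw [e] at h4
    exact h4
  have hc : ContinuousOn (fun v : ℝ => -(deriv riemannZeta ⟨x, v⟩ / riemannZeta ⟨x, v⟩).im) (uIcc (100 : ℝ) u) := by
    intro v hv
    rw [uIcc_of_le hu] at hv
    have ha := zeta_an (s := ⟨x, v⟩) (by show v ≠ 0; linarith [hv.1])
    have h1 : ContinuousAt (fun v : ℝ => riemannZeta ⟨x, v⟩) v := ContinuousAt.comp (g := riemannZeta) (f := fun v : ℝ => (⟨x, v⟩ : ℂ))
      ha.continuousAt (cont_mk_right x).continuousAt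
    have h2 : ContinuousAt (fun v : ℝ => deriv riemannZeta ⟨x, v⟩) v := ContinuousAt.comp (g := deriv riemannZeta) (f := fun v : ℝ => (⟨x, v⟩ : ℂ))
      ha.deriv.continuousAt (cont_mk_right x).continuousAt
    exact (Complex.continuous_im.continuousAt.comp (h2.div h1 (h0 v hv))).neg.continuousWithinAt
  have h5 := intervalIntegral.integral_eq_sub_of_hasDerivAt hd hc.intervalIntegrable
  rw [intervalIntegral.integral_neg] at h5
  linarith

/-- **FTC** -/
theorem ftc : S_FTC := by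
  intro u hu
  set K : Set ℂ := Icc (1 / 2 : ℝ) (3 / 2) ×ℂ Icc 100 u with hKd
  have hK : IsCompact K := isCompact_Icc.reProdIm isCompact_Icc
  have hfin := hK.inter_riemannZetaZeros_finite
  set Z : Finset ℂ := hfin.toFinset with hZd
  have hZ : ∀ s, s ∈ Z ↔ s ∈ K ∧ riemannZeta s = 0 := by
    intro s
    rw [hZd, Set.Finite.mem_toFinset]
    rfl
  have him : ∀ s ∈ K, s.im ≠ 0 := by
    intro s hs
    have : 100 ≤ s.im := hs.2.1
    linarith
  have hF : AnalyticOnNhd ℂ riemannZeta K := fun s hs => zeta_an (him s hs)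
  have hb := box_int (a := 1 / 2) (b := 3 / 2) (c := 100) (d := u) (by norm_num) hu riemannZeta Z hF
    (fun s hs => by rw [hZ]; exact ⟨fun h => ⟨hs, h⟩, fun h => h.2⟩) (fun s hs => ⟨((hZ s).1 hs).1, ord_ne_top s⟩)
  have hbi : Integrable (fun p : ℝ × ℝ => (deriv riemannZeta ⟨p.1, p.2⟩ / riemannZeta ⟨p.1, p.2⟩).im)
      ((volume.restrict (Ioc (1 / 2 : ℝ) (3 / 2))).prod (volume.restrict (Ioc 100 u))) := hb.im
  have hAIe : AI = fun v => ∫ x in Ioc (1 / 2 : ℝ) (3 / 2), (deriv riemannZeta ⟨x, v⟩ / riemannZeta ⟨x, v⟩).im := by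
    funext v
    unfold AI
    rw [intervalIntegral.integral_of_le (by norm_num)]
  have hAI : IntervalIntegrable AI volume 100 u := by
    rw [intervalIntegrable_iff_integrableOn_Ioc_of_le hu, hAIe]
    exact hbi.integral_prod_right
  refine ⟨hAI, ?_⟩
  rw [intervalIntegral.integral_of_le hu, hAIe]
  have hswap := MeasureTheory.integral_integral_swap (f := fun x v : ℝ => (deriv riemannZeta ⟨x, v⟩ / riemannZeta ⟨x, v⟩).im) hbi
  rw [← hswap]
  have hin : ∀ᵐ x : ℝ ∂(volume.restrict (Ioc (1 / 2 : ℝ) (3 / 2))),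
      (∫ v in Ioc 100 u, (deriv riemannZeta ⟨x, v⟩ / riemannZeta ⟨x, v⟩).im) =
        Real.log ‖riemannZeta ⟨x, 100⟩‖ - Real.log ‖riemannZeta ⟨x, u⟩‖ := by
    have h1 : ∀ᵐ x : ℝ ∂(volume.restrict (Ioc (1 / 2 : ℝ) (3 / 2))), x ∉ (Z.image re : Finset ℝ) :=
      ae_restrict_of_ae ((Finset.countable_toSet (Z.image re)).ae_notMem volume)
    filter_upwards [h1, ae_restrict_mem measurableSet_Ioc] with x hx hxI
    rw [← intervalIntegral.integral_of_le hu]
    refine inner hu fun v hv h0 => hx ?_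
    refine Finset.mem_image.2 ⟨⟨x, v⟩, (hZ _).2 ⟨⟨⟨hxI.1.le, hxI.2⟩, hv⟩, h0⟩, rfl⟩
  rw [integral_congr_ae hin, ← intervalIntegral.integral_of_le (by norm_num),
    intervalIntegral.integral_sub (log_int 100 le_rfl) (log_int u hu)]
  rfl

end

end Pool.Agent.U196.SO
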