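import Pool.Agent.U196.SO.GW
import Pool.Agent.U492.SO.AVER

/-!
# Project SL (helper196): package GAVER (own version), by the general Fubini argument of helper492
-/

set_option autoImplicit false

namespace Pool.Agent.U196.SO

open Filter Topology MeasureTheory Complex
open Pool.Agent.Q97.UM
open Pool.Agent.U492.SO (fub Fmeas Fbd)

noncomputable section

/-- **GAVER** -/
theorem gaver : J_GAVER := by
  intro hL k hk hk1
  obtain ⟨C, hC, hev⟩ := hL k hk hk1
  refine ⟨C, hC, ?_⟩
  filter_upwards [hev, eventually_ge_atTop (16 : ℝ)] with t hT ht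
  obtain ⟨U1, U2, h1, h2, h3, h4, hline⟩ := hT
  refine ⟨U1, U2, h1, h2, h3, h4, ?_⟩
  have hU : U1 ≤ U2 := by linarith
  have hU1 : 0 < U1 := by linarith
  obtain ⟨M, hM⟩ := Fbd (U2 := U2) hU1
  have hκc : Continuous fun u : ℝ => Real.exp (-(k * (u - t) ^ 2)) := by fun_prop
  have hwc : ∀ s ∈ Zw t U1 U2, Continuous fun a : ℝ => (mz s : ℝ) * wl k t a s := fun s _ => continuous_const.mul (wl_cont k t s)
  have hJc : Continuous fun a : ℝ => 2 * Real.pi * ∑ s ∈ Zw t U1 U2, (mz s : ℝ) * wl k t a s :=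
    continuous_const.mul (continuous_finsetSum _ hwc)
  obtain ⟨h5, h6⟩ := fub hκc (fun u => (Real.exp_pos _).le) Fmeas hU hM hJc (K := C) hline
  refine ⟨h5, ?_⟩
  have e : (∫ a in (1 / 2 : ℝ)..(3 / 2), 2 * Real.pi * ∑ s ∈ Zw t U1 U2, (mz s : ℝ) * wl k t a s) =
      2 * Real.pi * ∑ s ∈ Zw t U1 U2, (mz s : ℝ) * ∫ a in (1 / 2 : ℝ)..(3 / 2), wl k t a s := by
    rw [intervalIntegral.integral_const_mul, intervalIntegral.integral_finsetSum fun s hs => (hwc s hs).intervalIntegrable _ _]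
    congr 1
    exact Finset.sum_congr rfl fun s _ => intervalIntegral.integral_const_mul _ _
  rw [e] at h6
  exact h6

end

end Pool.Agent.U196.SO
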