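import Pool.Agent.U196.SO.Stm2
import Pool.Agent.U196.SO.LINEb

/-!
# Project SL (helper196): package GLINE (own version)
-/

set_option autoImplicit false

namespace Pool.Agent.U196.SO

open Filter Topology MeasureTheory Complex
open Pool.Agent.Q97.UM Pool.Agent.Q257.UM Pool.Agent.Q257.UM.VA

noncomputable section

lemma gmass' {k t c d : ℝ} (hk : 0 < k) (hcd : c ≤ d) : ∫ u in c..d, Real.exp (-(k * (u - t) ^ 2)) ≤ Real.sqrt (Real.pi / k) := by
  set g : ℝ → ℝ := fun x => Real.exp (-k * x ^ 2) with hg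
  have hgi : Integrable g := integrable_exp_neg_mul_sq hk
  have hgI : ∫ x : ℝ, g x = Real.sqrt (Real.pi / k) := integral_gaussian k
  have h1 : Integrable fun y : ℝ => g (y - t) := hgi.comp_sub_right t
  have e : (∫ u in c..d, Real.exp (-(k * (u - t) ^ 2))) = ∫ u in c..d, g (u - t) := by
    refine intervalIntegral.integral_congr fun u _ => ?_
    simp only [hg, neg_mul]
  rw [e, intervalIntegral.integral_of_le hcd]
  refine (setIntegral_le_integral h1 (Eventually.of_forall fun y => (Real.exp_pos _).le)).trans ?_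
  rw [integral_sub_right_eq_self (μ := volume) g t, hgI]

lemma gk_norm (k x y : ℝ) : ‖gk k ((x : ℂ) + (y : ℂ) * I)‖ = Real.exp (k * (x ^ 2 - y ^ 2)) := by
  unfold gk
  rw [Complex.norm_exp]
  congr 1
  rw [Complex.re_ofReal_mul, sq, Complex.mul_re]
  simp
  ring_nf
  simp

lemma gk_imag (k y : ℝ) : gk k ((y : ℂ) * I) = ((Real.exp (-(k * y ^ 2)) : ℝ) : ℂ) := by
  unfold gk
  rw [ofReal_exp]
  congr 1
  push_cast
  rw [mul_pow, I_sq]
  ring

/-- integrals against the Gaussian -/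
lemma gint {k t c d B : ℝ} (hk : 0 < k) (hcd : c ≤ d) (hB : 0 ≤ B) {E : Type*} [NormedAddCommGroup E] [NormedSpace ℝ E] {f : ℝ → E}
    (h : ∀ y, ‖f y‖ ≤ B * Real.exp (-(k * (y - t) ^ 2))) : ‖∫ y in c..d, f y‖ ≤ B * Real.sqrt (Real.pi / k) := by
  have hc : Continuous fun y : ℝ => B * Real.exp (-(k * (y - t) ^ 2)) := by fun_prop
  have h2 := intervalIntegral.norm_integral_le_of_norm_le (μ := volume) (f := f) hcd (g := fun y => B * Real.exp (-(k * (y - t) ^ 2)))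
    (Eventually.of_forall fun y _ => h y) (hc.intervalIntegrable _ _)
  refine h2.trans ?_
  rw [intervalIntegral.integral_const_mul]
  exact mul_le_mul_of_nonneg_left (gmass' hk hcd) hB

/-- one horizontal integral -/
theorem ghoriz {Cg k t c V σ : ℝ} (hCg : 0 ≤ Cg) (hk : 0 < k) (hk1 : k ≤ 1) (ht9 : 9 ≤ t)
    (hct : t / 8 ≤ |c - t|) (hV : 1 ≤ V) (hV2 : V ≤ 9 * t)
    (hg : ∀ σ ∈ Set.Icc (-1 / 2 : ℝ) (3 / 2), riemannZeta ⟨σ, c⟩ ≠ 0 ∧
      ‖deriv riemannZeta ⟨σ, c⟩ / riemannZeta ⟨σ, c⟩‖ ≤ Cg * Real.log V ^ 2) (hσ : 1 / 2 ≤ σ) (hσ2 : σ ≤ 3 / 2) :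
    ‖∫ x in σ..(3 / 2), deriv riemannZeta ⟨x, c⟩ / riemannZeta ⟨x, c⟩ * gk k (((x - σ : ℝ) : ℂ) + (c - t : ℝ) * I)‖ ≤
      768 * Cg / k := by
  have ht0 : 0 < t := by linarith
  have hlV : Real.log V ^ 2 ≤ 4 * t ^ 2 := by
    have h1 : 0 ≤ Real.log V := Real.log_nonneg hV
    have h2 : Real.log V ≤ 2 * Real.log t := by
      have h3 : Real.log V ≤ Real.log (t ^ 2) := Real.log_le_log (by linarith) (by nlinarith)
      rwa [Real.log_pow] at h3
    have h3 : Real.log t ≤ t := Real.log_le_self ht0.le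
    nlinarith
  have h1 : ∀ x ∈ Set.uIoc σ (3 / 2), ‖deriv riemannZeta ⟨x, c⟩ / riemannZeta ⟨x, c⟩ *
      gk k (((x - σ : ℝ) : ℂ) + (c - t : ℝ) * I)‖ ≤ 768 * Cg / k := by
    intro x hx
    rw [Set.uIoc_of_le hσ2] at hx
    have h2 := (hg x ⟨by linarith [hx.1], hx.2⟩).2
    rw [norm_mul, gk_norm]
    have h3 : Real.exp (k * ((x - σ) ^ 2 - (c - t) ^ 2)) ≤ 3 * Real.exp (-(k * t ^ 2 / 64)) := by
      have e1 : k * ((x - σ) ^ 2 - (c - t) ^ 2) ≤ 1 + -(k * t ^ 2 / 64) := by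
        have a1 : (x - σ) ^ 2 ≤ 1 := by
          have : x - σ ≤ 1 := by linarith [hx.2]
          nlinarith [hx.1]
        have a2 : (t / 8) ^ 2 ≤ (c - t) ^ 2 := by
          rw [← sq_abs (c - t)]
          exact pow_le_pow_left₀ (by positivity) hct 2
        nlinarith
      refine (Real.exp_le_exp.2 e1).trans ?_
      rw [Real.exp_add]
      refine mul_le_mul_of_nonneg_right ?_ (Real.exp_pos _).le
      have := Real.exp_one_lt_d9
      linarith
    have h4 : t ^ 2 * Real.exp (-(k * t ^ 2 / 64)) ≤ 64 / k := by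
      have h5 := Real.add_one_le_exp (k * t ^ 2 / 64)
      have h6 : k * t ^ 2 / 64 * Real.exp (-(k * t ^ 2 / 64)) ≤ 1 := by
        rw [Real.exp_neg, ← div_eq_mul_inv, div_le_one (Real.exp_pos _)]
        linarith
      rw [le_div_iff₀ hk]
      nlinarith
    calc ‖deriv riemannZeta ⟨x, c⟩ / riemannZeta ⟨x, c⟩‖ * Real.exp (k * ((x - σ) ^ 2 - (c - t) ^ 2)) ≤
          (Cg * (4 * t ^ 2)) * (3 * Real.exp (-(k * t ^ 2 / 64))) := by
          refine mul_le_mul (h2.trans (mul_le_mul_of_nonneg_left hlV hCg)) h3 (Real.exp_pos _).le (by positivity)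
      _ = 12 * Cg * (t ^ 2 * Real.exp (-(k * t ^ 2 / 64))) := by ring
      _ ≤ 12 * Cg * (64 / k) := mul_le_mul_of_nonneg_left h4 (by positivity)
      _ = _ := by ring
  have h2 := intervalIntegral.norm_integral_le_of_norm_le_const h1
  refine h2.trans ?_
  have h3 : |3 / 2 - σ| ≤ 1 := by rw [abs_le]; constructor <;> linarith
  calc 768 * Cg / k * |3 / 2 - σ| ≤ 768 * Cg / k * 1 := mul_le_mul_of_nonneg_left h3 (by positivity)
    _ = _ := mul_one _

/-- **GLINE** -/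
theorem gline : S_GLINE := by
  intro k hk hk1
  have hLIT : S_LIT := Pool.Agent.Q121.UM.t_LIT
  obtain ⟨B0, hB0, hlog⟩ := log_bd
  obtain ⟨Cg, hCg, hgood⟩ := H370.good_height H370.good_zeta
  have hpi := Real.pi_pos
  have hB1 := B1_nonneg
  set G : ℝ := Real.sqrt (Real.pi / k) with hG
  have hG0 : 0 ≤ G := Real.sqrt_nonneg _
  refine ⟨B0 * G + 3 * B1 * G + 1536 * Cg / k, by positivity, ?_⟩
  filter_upwards [eventually_ge_atTop 64] with t ht
  have ht0 : 0 < t := by linarith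
  obtain ⟨U1, hU1, hg1⟩ := hgood (t - t / 8 - 1) (by linarith)
  obtain ⟨U2, hU2, hg2⟩ := hgood (t + t / 8) (by linarith)
  obtain ⟨hU1a, hU1b⟩ := hU1
  obtain ⟨hU2a, hU2b⟩ := hU2
  have hU1b' : U1 ≤ t - t / 8 := by linarith
  refine ⟨U1, U2, hU1a, hU1b', hU2a, hU2b, fun a ha ha2 => ?_⟩
  have hU : U1 < U2 := by linarith
  set Z : Finset ℂ := (ZD t).filter (fun s => a < s.re ∧ U1 < s.im ∧ s.im < U2) with hZ
  have hlit := hLIT riemannZeta (gk k) a (3 / 2) U1 U2 t Z ha2 hU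
    (fun s hs => z_an (fun h => by
      have h1 : U1 ≤ s.im := hs.2.1
      rw [h, one_im] at h1
      linarith))
    (by unfold gk; fun_prop)
    (fun y => by rw [gk_imag, ofReal_im])
    (fun x hx => ⟨(hg1 x ⟨by linarith [hx.1], hx.2⟩).1, (hg2 x ⟨by linarith [hx.1], hx.2⟩).1⟩)
    (fun y _ => z_ne y)
    (fun s => by
      rw [hZ, Finset.mem_filter, mem_ZD (by linarith)]
      constructor
      · rintro ⟨⟨h1, h2, h3, h4, h5⟩, h6, h7, h8⟩
        exact ⟨h6, by linarith, h7, h8, h5⟩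
      · rintro ⟨h1, h2, h3, h4, h5⟩
        have h6 : s.re < 1 := by
          by_contra hcon
          push Not at hcon
          exact riemannZeta_ne_zero_of_one_le_re hcon h5
        exact ⟨⟨by linarith, h6, by linarith, by linarith, h5⟩, h1, h3, h4⟩)
  have e0 : (fun u => Real.exp (-(k * (u - t) ^ 2)) * Real.log ‖riemannZeta ⟨a, u⟩‖) =
      fun y => (gk k (((y - t : ℝ) : ℂ) * I)).re * Real.log ‖riemannZeta ⟨a, y⟩‖ := by
    funext y
    rw [gk_imag, ofReal_re]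
  rw [e0]
  refine ⟨hlit.1, ?_⟩
  rw [hlit.2]
  have t1 : |∫ y in U1..U2, (gk k (((y - t : ℝ) : ℂ) * I)).re * Real.log ‖riemannZeta ⟨3 / 2, y⟩‖| ≤ B0 * G := by
    have := gint (t := t) (f := fun y => (gk k (((y - t : ℝ) : ℂ) * I)).re * Real.log ‖riemannZeta ⟨3 / 2, y⟩‖) hk hU.le hB0 (fun y => by
      rw [gk_imag, ofReal_re, norm_mul, Real.norm_of_nonneg (Real.exp_pos _).le, Real.norm_eq_abs, mul_comm]
      exact mul_le_mul_of_nonneg_right (hlog y) (Real.exp_pos _).le)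
    rwa [Real.norm_eq_abs] at this
  have t2 : |∫ σ in a..(3 / 2), (∫ y in U1..U2, deriv riemannZeta ⟨3 / 2, y⟩ / riemannZeta ⟨3 / 2, y⟩ *
      gk k (((3 / 2 - σ : ℝ) : ℂ) + (y - t : ℝ) * I)).re| ≤ 3 * B1 * G := by
    have h1 := intervalIntegral.norm_integral_le_of_norm_le_const (a := a) (b := 3 / 2)
      (f := fun σ => (∫ y in U1..U2, deriv riemannZeta ⟨3 / 2, y⟩ / riemannZeta ⟨3 / 2, y⟩ *
        gk k (((3 / 2 - σ : ℝ) : ℂ) + (y - t : ℝ) * I)).re) (C := 3 * B1 * G) (fun σ hσ => ?_)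
    · rw [Real.norm_eq_abs] at h1
      refine h1.trans ?_
      rw [abs_of_pos (by linarith)]
      calc 3 * B1 * G * (3 / 2 - a) ≤ 3 * B1 * G * 1 := mul_le_mul_of_nonneg_left (by linarith) (by positivity)
        _ = _ := mul_one _
    · rw [Set.uIoc_of_le (by linarith)] at hσ
      refine (Complex.abs_re_le_norm _).trans ?_
      refine gint (t := t) hk hU.le (B := 3 * B1) (by positivity) fun y => ?_
      rw [norm_mul, gk_norm]
      have h2 : ‖deriv riemannZeta ⟨3 / 2, y⟩ / riemannZeta ⟨3 / 2, y⟩‖ ≤ B1 := Gz_norm y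
      have h3 : Real.exp (k * ((3 / 2 - σ) ^ 2 - (y - t) ^ 2)) ≤ 3 * Real.exp (-(k * (y - t) ^ 2)) := by
        have e1 : k * ((3 / 2 - σ) ^ 2 - (y - t) ^ 2) = k * (3 / 2 - σ) ^ 2 + -(k * (y - t) ^ 2) := by ring
        rw [e1, Real.exp_add]
        refine mul_le_mul_of_nonneg_right ?_ (Real.exp_pos _).le
        have a1 : (3 / 2 - σ) ^ 2 ≤ 1 := by
          have : 3 / 2 - σ ≤ 1 := by linarith [hσ.1]
          nlinarith [hσ.2]
        have a2 : k * (3 / 2 - σ) ^ 2 ≤ 1 := by nlinarith [sq_nonneg (3 / 2 - σ)]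
        have := Real.exp_one_lt_d9
        linarith [Real.exp_le_exp.2 a2]
      calc _ ≤ B1 * (3 * Real.exp (-(k * (y - t) ^ 2))) := mul_le_mul h2 h3 (Real.exp_pos _).le hB1
        _ = _ := by ring
  have t3 : ∑ s ∈ Z, (H370.mult riemannZeta s : ℝ) * ∫ σ in a..s.re, (gk k (s - (σ + t * I))).re =
      ∑ s ∈ Zw t U1 U2, (mz s : ℝ) * wl k t a s := by
    have hsub : Z ⊆ Zw t U1 U2 := by
      intro s hs
      rw [hZ, Finset.mem_filter] at hs
      unfold Zw
      rw [Finset.mem_filter]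
      exact ⟨hs.1, by linarith [hs.2.1], hs.2.2⟩
    rw [← Finset.sum_subset hsub]
    · refine Finset.sum_congr rfl fun s hs => ?_
      rw [hZ, Finset.mem_filter] at hs
      unfold wl
      rw [max_eq_right hs.2.1.le]
      rfl
    · intro s hs hs2
      unfold Zw at hs
      rw [Finset.mem_filter] at hs
      have h1 : s.re ≤ a := by
        by_contra hcon
        push Not at hcon
        exact hs2 (by rw [hZ, Finset.mem_filter]; exact ⟨hs.1, hcon, hs.2.2⟩)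
      unfold wl
      rw [max_eq_left h1, intervalIntegral.integral_same, mul_zero]
  have t4 : |∫ σ in a..(3 / 2), ((∫ x in σ..(3 / 2), deriv riemannZeta ⟨x, U1⟩ / riemannZeta ⟨x, U1⟩ *
      gk k (((x - σ : ℝ) : ℂ) + (U1 - t : ℝ) * I)) - (∫ x in σ..(3 / 2), deriv riemannZeta ⟨x, U2⟩ / riemannZeta ⟨x, U2⟩ *
      gk k (((x - σ : ℝ) : ℂ) + (U2 - t : ℝ) * I))).im| ≤ 1536 * Cg / k := by
    have h1 := intervalIntegral.norm_integral_le_of_norm_le_const (a := a) (b := 3 / 2)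
      (f := fun σ => ((∫ x in σ..(3 / 2), deriv riemannZeta ⟨x, U1⟩ / riemannZeta ⟨x, U1⟩ *
        gk k (((x - σ : ℝ) : ℂ) + (U1 - t : ℝ) * I)) - (∫ x in σ..(3 / 2), deriv riemannZeta ⟨x, U2⟩ / riemannZeta ⟨x, U2⟩ *
        gk k (((x - σ : ℝ) : ℂ) + (U2 - t : ℝ) * I))).im) (C := 1536 * Cg / k) (fun σ hσ => ?_)
    · rw [Real.norm_eq_abs] at h1
      refine h1.trans ?_
      rw [abs_of_pos (by linarith)]
      calc 1536 * Cg / k * (3 / 2 - a) ≤ 1536 * Cg / k * 1 := mul_le_mul_of_nonneg_left (by linarith) (by positivity)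
        _ = _ := mul_one _
    · rw [Set.uIoc_of_le (by linarith)] at hσ
      have a1 := ghoriz (t := t) hCg.le hk hk1 (by linarith) (c := U1) (V := t - t / 8 - 1) (σ := σ)
        (by rw [abs_sub_comm, abs_of_pos (by linarith)]; linarith) (by linarith) (by linarith) hg1 (by linarith [hσ.1]) hσ.2
      have a2 := ghoriz (t := t) hCg.le hk hk1 (by linarith) (c := U2) (V := t + t / 8) (σ := σ)
        (by rw [abs_of_pos (by linarith)]; linarith) (by linarith) (by linarith) hg2 (by linarith [hσ.1]) hσ.2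
      refine (Complex.abs_im_le_norm _).trans ((norm_sub_le _ _).trans ?_)
      have e1 : 1536 * Cg / k = 768 * Cg / k + 768 * Cg / k := by ring
      rw [e1]
      exact add_le_add a1 a2
  rw [t3]
  set A1 := ∫ y in U1..U2, (gk k (((y - t : ℝ) : ℂ) * I)).re * Real.log ‖riemannZeta ⟨3 / 2, y⟩‖ with hA1
  set A2 := ∫ σ in a..(3 / 2), (∫ y in U1..U2, deriv riemannZeta ⟨3 / 2, y⟩ / riemannZeta ⟨3 / 2, y⟩ *
      gk k (((3 / 2 - σ : ℝ) : ℂ) + (y - t : ℝ) * I)).re with hA2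
  set A3 := ∑ s ∈ Zw t U1 U2, (mz s : ℝ) * wl k t a s with hA3
  set A4 := ∫ σ in a..(3 / 2), ((∫ x in σ..(3 / 2), deriv riemannZeta ⟨x, U1⟩ / riemannZeta ⟨x, U1⟩ *
      gk k (((x - σ : ℝ) : ℂ) + (U1 - t : ℝ) * I)) - (∫ x in σ..(3 / 2), deriv riemannZeta ⟨x, U2⟩ / riemannZeta ⟨x, U2⟩ *
      gk k (((x - σ : ℝ) : ℂ) + (U2 - t : ℝ) * I))).im with hA4
  have e1 : A1 - A2 + 2 * Real.pi * A3 - A4 - 2 * Real.pi * A3 = A1 + -A2 + -A4 := by ring
  rw [e1]
  refine (abs_add_le _ _).trans ?_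
  have h4 := abs_add_le A1 (-A2)
  rw [abs_neg] at h4 ⊢
  linarith

end

end Pool.Agent.U196.SO
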