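import Pool.Agent.U196.SO.Stm2

/-!
# Project SL (helper196): package GTAIL (own version): the distant zeros
-/

set_option autoImplicit false

namespace Pool.Agent.U196.SO

open Filter Topology MeasureTheory Complex
open Pool.Agent.Q97.UM

noncomputable section

/-- partial sums of the geometric series -/
lemma geo_le {q : ℝ} (h0 : 0 ≤ q) (h1 : q < 1) (N : ℕ) : ∑ i ∈ Finset.range N, q ^ i ≤ (1 - q)⁻¹ := by
  rw [← tsum_geometric_of_lt_one h0 h1]
  exact (summable_geometric_of_lt_one h0 h1).sum_le_tsum _ fun i _ => by positivity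

/-- the sum over the integers -/
lemma exp_sum_le {t : ℝ} (ht : 0 ≤ t) (M : ℕ) :
    ∑ j ∈ Finset.range M, Real.exp (-(|(j : ℝ) - t| / 2)) ≤ 2 * (1 - Real.exp (-(1 / 2)))⁻¹ := by
  set q : ℝ := Real.exp (-(1 / 2)) with hq
  have hq0 : 0 ≤ q := (Real.exp_pos _).le
  have hq1 : q < 1 := by
    rw [hq, Real.exp_lt_one_iff]
    norm_num
  set n : ℕ := ⌊t⌋₊ with hn
  have hn1 : (n : ℝ) ≤ t := Nat.floor_le ht
  have hn2 : t < n + 1 := Nat.lt_floor_add_one t
  have hqp : ∀ i : ℕ, q ^ i = Real.exp (-((i : ℝ) / 2)) := by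
    intro i
    rw [hq, ← Real.exp_nat_mul]
    congr 1
    ring
  have h1 : ∀ j : ℕ, j < n + 1 → Real.exp (-(|(j : ℝ) - t| / 2)) ≤ q ^ (n - j) := by
    intro j hj
    rw [hqp]
    refine Real.exp_le_exp.2 ?_
    have hj' : j ≤ n := by omega
    rw [Nat.cast_sub hj']
    have hjt : (j : ℝ) ≤ n := by exact_mod_cast hj'
    rw [abs_of_nonpos (by linarith)]
    linarith
  have h2 : ∀ j : ℕ, n + 1 ≤ j → Real.exp (-(|(j : ℝ) - t| / 2)) ≤ q ^ (j - (n + 1)) := by
    intro j hj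
    rw [hqp]
    refine Real.exp_le_exp.2 ?_
    rw [Nat.cast_sub hj]
    have hjt : (n : ℝ) + 1 ≤ j := by exact_mod_cast hj
    rw [abs_of_nonneg (by linarith)]
    push_cast
    linarith
  have h3 : ∑ j ∈ Finset.range M, Real.exp (-(|(j : ℝ) - t| / 2)) ≤
      (∑ j ∈ Finset.range (n + 1), Real.exp (-(|(j : ℝ) - t| / 2))) + ∑ j ∈ Finset.Ico (n + 1) M, Real.exp (-(|(j : ℝ) - t| / 2)) := by
    rw [← Finset.sum_union]
    · refine Finset.sum_le_sum_of_subset_of_nonneg (fun j hj => ?_) fun _ _ _ => (Real.exp_pos _).le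
      rw [Finset.mem_union, Finset.mem_range, Finset.mem_Ico]
      rw [Finset.mem_range] at hj
      omega
    · rw [Finset.disjoint_left]
      intro j hj hj2
      rw [Finset.mem_range] at hj
      rw [Finset.mem_Ico] at hj2
      omega
  have h4 : ∑ j ∈ Finset.range (n + 1), Real.exp (-(|(j : ℝ) - t| / 2)) ≤ (1 - q)⁻¹ := by
    refine (Finset.sum_le_sum fun j hj => h1 j (Finset.mem_range.1 hj)).trans ?_
    have e := Finset.sum_range_reflect (fun i => q ^ i) (n + 1)
    have e2 : ∑ j ∈ Finset.range (n + 1), q ^ (n - j) = ∑ j ∈ Finset.range (n + 1), q ^ (n + 1 - 1 - j) := by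
      refine Finset.sum_congr rfl fun j _ => ?_
      congr 1
    rw [e2, e]
    exact geo_le hq0 hq1 _
  have h5 : ∑ j ∈ Finset.Ico (n + 1) M, Real.exp (-(|(j : ℝ) - t| / 2)) ≤ (1 - q)⁻¹ := by
    refine (Finset.sum_le_sum fun j hj => h2 j (Finset.mem_Ico.1 hj).1).trans ?_
    rw [Finset.sum_Ico_eq_sum_range]
    refine le_trans (le_of_eq ?_) (geo_le hq0 hq1 (M - (n + 1)))
    refine Finset.sum_congr rfl fun j _ => ?_
    rw [Nat.add_sub_cancel_left]
  linarith

/-- **GTAIL** -/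
theorem gtail : S_GTAIL := by
  intro η hη
  obtain ⟨C, hC, hcount⟩ := Pool.Agent.Q149.UM.count_near
  set B : ℝ := 2 * (1 - Real.exp (-(1 / 2)))⁻¹ with hB
  have hB0 : 0 ≤ B := by
    rw [hB]
    have : Real.exp (-(1 / 2)) < 1 := by
      rw [Real.exp_lt_one_iff]
      norm_num
    have h2 : 0 < 1 - Real.exp (-(1 / 2)) := by linarith
    positivity
  -- the choice of k
  obtain ⟨k, hk, hk1, hkη⟩ : ∃ k : ℝ, 0 < k ∧ k ≤ 1 ∧ Real.exp (-(1 / (2 * k))) * (2 * B * C) ≤ η := by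
    have h1 : Tendsto (fun x : ℝ => Real.exp (-x) * (2 * B * C)) atTop (𝓝 0) := by
      have := Real.tendsto_exp_neg_atTop_nhds_zero.mul_const (2 * B * C)
      rwa [zero_mul] at this
    obtain ⟨x, hx1, hx2⟩ := ((h1.eventually_le_const hη).and (eventually_ge_atTop 1)).exists
    refine ⟨1 / (2 * x), by positivity, ?_, ?_⟩
    · rw [div_le_one (by positivity)]
      linarith
    · have e : 1 / (2 * (1 / (2 * x))) = x := by field_simp
      rw [e]
      exact hx1
  refine ⟨k, hk, hk1, ?_⟩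
  filter_upwards [eventually_ge_atTop (64 : ℝ)] with t ht
  have ht0 : 0 < t := by linarith
  have hL0 : 0 ≤ Real.log t := Real.log_nonneg (by linarith)
  set A := (ZD t).filter (fun s => 1 < k * |s.im - t|) with hA
  have hmem : ∀ s ∈ A, 4 < s.im ∧ s.im ≤ 16 * t ∧ 1 < k * |s.im - t| ∧ s ∈ ZD t := by
    intro s hs
    rw [hA, Finset.mem_filter] at hs
    have h1 := (Pool.Agent.Q257.UM.mem_ZD (by linarith) s).1 hs.1
    exact ⟨by linarith [h1.2.2.1], h1.2.2.2.1, hs.2, hs.1⟩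
  set J : Finset ℕ := Finset.range (⌊16 * t⌋₊ + 1) with hJ
  have hmaps : ∀ s ∈ A, ⌊s.im⌋₊ ∈ J := by
    intro s hs
    obtain ⟨h1, h2, -, -⟩ := hmem s hs
    rw [hJ, Finset.mem_range]
    have := Nat.floor_le_floor h2
    omega
  rw [← Finset.sum_fiberwise_of_maps_to hmaps]
  have hinner : ∀ j ∈ J, ∑ s ∈ A with ⌊s.im⌋₊ = j, (mz s : ℝ) * Real.exp (-(k * (s.im - t) ^ 2)) ≤
      Real.exp (-(1 / (2 * k))) * (2 * Real.exp (-(|(j : ℝ) - t| / 2))) * (C * Real.log t) := by
    intro j _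
    -- either empty or `4 ≤ j`
    rcases (A.filter (fun s => ⌊s.im⌋₊ = j)).eq_empty_or_nonempty with he | ⟨s₀, hs₀⟩
    · rw [he, Finset.sum_empty]
      positivity
    rw [Finset.mem_filter] at hs₀
    have hj4 : (4 : ℝ) ≤ j := by
      have h1 := (hmem s₀ hs₀.1).1
      have h2 : (4 : ℕ) ≤ ⌊s₀.im⌋₊ := Nat.le_floor (by push_cast; linarith)
      rw [hs₀.2] at h2
      exact_mod_cast h2
    have hj16 : (j : ℝ) ≤ 16 * t := by
      have h1 := (hmem s₀ hs₀.1)
      have h2 : ((⌊s₀.im⌋₊ : ℕ) : ℝ) ≤ s₀.im := Nat.floor_le (by linarith)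
      rw [hs₀.2] at h2
      linarith
    have hc := hcount t j (by linarith) hj4 hj16
    have hterm : ∀ s ∈ A.filter (fun s => ⌊s.im⌋₊ = j), (mz s : ℝ) * Real.exp (-(k * (s.im - t) ^ 2)) ≤
        (mz s : ℝ) * (Real.exp (-(1 / (2 * k))) * (2 * Real.exp (-(|(j : ℝ) - t| / 2)))) := by
      intro s hs
      rw [Finset.mem_filter] at hs
      obtain ⟨h1, h2, h3, h4⟩ := hmem s hs.1
      refine mul_le_mul_of_nonneg_left ?_ (Nat.cast_nonneg _)
      have h5 : ((⌊s.im⌋₊ : ℕ) : ℝ) ≤ s.im := Nat.floor_le (by linarith)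
      have h6 := Nat.lt_floor_add_one s.im
      rw [hs.2] at h5 h6
      set x := |s.im - t| with hx
      have hx0 : 0 ≤ x := abs_nonneg _
      have h7 : 1 / k < x := by
        rw [div_lt_iff₀ hk]
        linarith
      have h8 : |(j : ℝ) - t| ≤ x + 1 := by
        have e : (j : ℝ) - t = (s.im - t) + ((j : ℝ) - s.im) := by ring
        rw [e]
        refine (abs_add_le _ _).trans (add_le_add le_rfl ?_)
        rw [abs_le]
        constructor <;> linarith
      have h9 : x ≤ k * (s.im - t) ^ 2 := by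
        rw [← sq_abs, ← hx]
        nlinarith
      have h10 : 1 / (2 * k) = 1 / k / 2 := by field_simp
      have h11 : -(k * (s.im - t) ^ 2) ≤ 1 / 2 + (-(1 / (2 * k)) + -(|(j : ℝ) - t| / 2)) := by
        rw [h10]
        linarith
      refine (Real.exp_le_exp.2 h11).trans ?_
      rw [Real.exp_add, Real.exp_add]
      have h12 : Real.exp (1 / 2) ≤ 2 := by
        have h13 : (1 : ℝ) / 2 ≤ Real.log 2 := by
          have := Real.log_two_gt_d9
          linarith
        calc Real.exp (1 / 2) ≤ Real.exp (Real.log 2) := Real.exp_le_exp.2 h13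
          _ = 2 := Real.exp_log (by norm_num)
      calc Real.exp (1 / 2) * (Real.exp (-(1 / (2 * k))) * Real.exp (-(|(j : ℝ) - t| / 2))) ≤
            2 * (Real.exp (-(1 / (2 * k))) * Real.exp (-(|(j : ℝ) - t| / 2))) := mul_le_mul_of_nonneg_right h12 (by positivity)
        _ = _ := by ring
    refine (Finset.sum_le_sum hterm).trans ?_
    rw [← Finset.sum_mul, mul_comm]
    refine mul_le_mul_of_nonneg_left ?_ (by positivity)
    refine le_trans (Finset.sum_le_sum_of_subset_of_nonneg (fun s hs => ?_) fun s _ _ => Nat.cast_nonneg _) hc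
    rw [Finset.mem_filter] at hs
    obtain ⟨h1, h2, h3, h4⟩ := hmem s hs.1
    have h5 : ((⌊s.im⌋₊ : ℕ) : ℝ) ≤ s.im := Nat.floor_le (by linarith)
    have h6 := Nat.lt_floor_add_one s.im
    rw [hs.2] at h5 h6
    unfold Pool.Agent.Q149.UM.AA
    rw [Finset.mem_filter]
    refine ⟨h4, ?_⟩
    rw [abs_le]
    constructor <;> linarith
  refine (Finset.sum_le_sum hinner).trans ?_
  rw [← Finset.sum_mul]
  have e1 : ∑ j ∈ J, Real.exp (-(1 / (2 * k))) * (2 * Real.exp (-(|(j : ℝ) - t| / 2))) =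
      Real.exp (-(1 / (2 * k))) * (2 * ∑ j ∈ J, Real.exp (-(|(j : ℝ) - t| / 2))) := by
    rw [Finset.mul_sum, Finset.mul_sum]
  rw [e1]
  have h1 := exp_sum_le ht0.le (⌊16 * t⌋₊ + 1)
  rw [← hB, ← hJ] at h1
  calc Real.exp (-(1 / (2 * k))) * (2 * ∑ j ∈ J, Real.exp (-(|(j : ℝ) - t| / 2))) * (C * Real.log t) ≤
        Real.exp (-(1 / (2 * k))) * (2 * B) * (C * Real.log t) := by
        refine mul_le_mul_of_nonneg_right (mul_le_mul_of_nonneg_left ?_ (Real.exp_pos _).le) (by positivity)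
        linarith
    _ = Real.exp (-(1 / (2 * k))) * (2 * B * C) * Real.log t := by ring
    _ ≤ η * Real.log t := mul_le_mul_of_nonneg_right hkη hL0

end

end Pool.Agent.U196.SO
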