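import Pool.Agent.U196.SO.Reso

/-!
# Project SO (helper196): the assembly
-/

set_option autoImplicit false

namespace Pool.Agent.U196.SO

open Filter Topology MeasureTheory Complex
open Pool.Agent.Q97.UM
open Pool.Agent.U761.SZ (aS AI ell aS_eq ell_cont)

noncomputable section

/-- the size -/
def VV (T : ℝ) : ℝ := Real.sqrt (Real.log T) / Real.log (Real.log T) ^ (3 / 2 : ℝ)

lemma VV_cmp {T : ℝ} (hT : 16 ≤ T) (h2 : 2 ≤ Real.log T) (hl : 1 ≤ Real.log (Real.log T)) : VV T / 4 ≤ VV (5 / 4 * T) := by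
  have hT0 : 0 < T := by linarith
  have h1 : Real.log T ≤ Real.log (5 / 4 * T) := Real.log_le_log hT0 (by linarith)
  have h3 : Real.log (5 / 4 * T) ≤ 2 * Real.log T := by
    rw [Real.log_mul (by norm_num) hT0.ne']
    have : Real.log (5 / 4) ≤ Real.log T := Real.log_le_log (by norm_num) (by linarith)
    linarith
  have h4 : Real.log (5 / 4 * T) ≤ Real.log T ^ 2 := by nlinarith
  have h5 : Real.log (Real.log (5 / 4 * T)) ≤ 2 * Real.log (Real.log T) := by
    have := Real.log_le_log (by linarith) h4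
    rwa [Real.log_pow, Nat.cast_ofNat] at this
  have h6 : Real.log (Real.log T) ≤ Real.log (Real.log (5 / 4 * T)) := Real.log_le_log (by linarith) h1
  have h7 : Real.log (Real.log (5 / 4 * T)) ^ (3 / 2 : ℝ) ≤ 4 * Real.log (Real.log T) ^ (3 / 2 : ℝ) := by
    calc Real.log (Real.log (5 / 4 * T)) ^ (3 / 2 : ℝ) ≤ (2 * Real.log (Real.log T)) ^ (3 / 2 : ℝ) :=
          Real.rpow_le_rpow (by linarith) h5 (by norm_num)
      _ = 2 ^ (3 / 2 : ℝ) * Real.log (Real.log T) ^ (3 / 2 : ℝ) := Real.mul_rpow (by norm_num) (by linarith)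
      _ ≤ 4 * Real.log (Real.log T) ^ (3 / 2 : ℝ) := by
          refine mul_le_mul_of_nonneg_right ?_ (by positivity)
          calc (2 : ℝ) ^ (3 / 2 : ℝ) ≤ 2 ^ (2 : ℝ) := Real.rpow_le_rpow_of_exponent_le (by norm_num) (by norm_num)
            _ = 4 := by norm_num
  unfold VV
  have h8 : 0 < Real.log (Real.log (5 / 4 * T)) := by linarith
  have h9 : 0 < Real.log (Real.log T) := by linarith
  calc Real.sqrt (Real.log T) / Real.log (Real.log T) ^ (3 / 2 : ℝ) / 4 =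
      Real.sqrt (Real.log T) / (4 * Real.log (Real.log T) ^ (3 / 2 : ℝ)) := by field_simp
    _ ≤ Real.sqrt (Real.log (5 / 4 * T)) / Real.log (Real.log (5 / 4 * T)) ^ (3 / 2 : ℝ) :=
        div_le_div₀ (Real.sqrt_nonneg _) (Real.sqrt_le_sqrt h1) (by positivity) h7

lemma VV_tendsto (K : ℝ) : ∀ᶠ T : ℝ in atTop, K ≤ VV T := by
  have h0 : ∀ᶠ L : ℝ in atTop, K ≤ Real.sqrt L / Real.log L ^ (3 / 2 : ℝ) := by
    have hK : 0 < 1 / (|K| + 1) := by positivity
    have h1 := (isLittleO_log_rpow_rpow_atTop (s := 1 / 2) (3 / 2 : ℝ) (by norm_num)).bound hK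
    filter_upwards [h1, Real.tendsto_log_atTop.eventually_ge_atTop 1, eventually_ge_atTop 1] with L h1 h2 h3
    have hl : 0 < Real.log L := by linarith
    rw [Real.norm_of_nonneg (by positivity), Real.norm_of_nonneg (by positivity), one_div_mul_eq_div, le_div_iff₀ (by positivity)] at h1
    rw [le_div_iff₀ (by positivity), Real.sqrt_eq_rpow]
    refine le_trans ?_ h1
    rw [mul_comm]
    refine mul_le_mul_of_nonneg_left ?_ (by positivity)
    linarith [le_abs_self K]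
  exact Real.tendsto_log_atTop.eventually h0

lemma kmass {ψ₁ k₀ : ℝ → ℝ} (hKB : S_KB) (hK : Ker ψ₁ k₀) {D t c d : ℝ} (hD : 0 < D) (hcd : c ≤ d) :
    ∫ u in c..d, D * k₀ (D * (u - t)) ≤ 1 := by
  obtain ⟨-, hint, hone, -, -⟩ := hKB ψ₁ k₀ hK
  set g : ℝ → ℝ := fun x => D * k₀ (D * x) with hg
  have hgi : Integrable g := (hint.comp_mul_left' hD.ne').const_mul D
  have hgI : ∫ x : ℝ, g x = 1 := by
    rw [hg, integral_const_mul, Measure.integral_comp_mul_left k₀ D, smul_eq_mul, ← mul_assoc, abs_of_pos (inv_pos.2 hD),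
      mul_inv_cancel₀ hD.ne', one_mul, hone]
  have hg0 : ∀ x, 0 ≤ g x := fun x => mul_nonneg hD.le (hK.nonneg _)
  have h1 : Integrable fun y : ℝ => g (y - t) := hgi.comp_sub_right t
  rw [intervalIntegral.integral_of_le hcd]
  refine (setIntegral_le_integral h1 (Eventually.of_forall fun y => hg0 _)).trans ?_
  rw [integral_sub_right_eq_self (μ := volume) g t, hgI]

lemma upper {ψ₁ k₀ : ℝ → ℝ} (hKB : S_KB) (hK : Ker ψ₁ k₀) {D t c d B σ : ℝ} (hD : 0 < D) (hcd : c ≤ d) (hB : 0 ≤ B)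
    {F : ℝ → ℝ} (hi : IntervalIntegrable (fun u => D * k₀ (D * (u - t)) * F u) volume c d)
    (h : ∀ u, c ≤ u → u ≤ d → σ * F u ≤ B) : σ * (∫ u in c..d, D * k₀ (D * (u - t)) * F u) ≤ B := by
  have hc : Continuous fun u => D * k₀ (D * (u - t)) := by
    have := hK.cont
    fun_prop
  rw [← intervalIntegral.integral_const_mul]
  calc (∫ u in c..d, σ * (D * k₀ (D * (u - t)) * F u)) ≤ ∫ u in c..d, D * k₀ (D * (u - t)) * B := by
        refine intervalIntegral.integral_mono_on hcd (hi.const_mul σ) ((hc.mul continuous_const).intervalIntegrable _ _) fun u hu => ?_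
        have h0 : 0 ≤ D * k₀ (D * (u - t)) := mul_nonneg hD.le (hK.nonneg _)
        calc σ * (D * k₀ (D * (u - t)) * F u) = D * k₀ (D * (u - t)) * (σ * F u) := by ring
          _ ≤ D * k₀ (D * (u - t)) * B := mul_le_mul_of_nonneg_left (h u hu.1 hu.2) h0
    _ = (∫ u in c..d, D * k₀ (D * (u - t))) * B := intervalIntegral.integral_mul_const _ _
    _ ≤ 1 * B := mul_le_mul_of_nonneg_right (kmass hKB hK hD hcd) hB
    _ = B := one_mul B

/-- the antiderivative and the horizontal integral -/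
lemma anti (hF : S_FTC) (hE : S_EDGE) : ∃ C : ℝ, 0 ≤ C ∧ ∀ u : ℝ, 100 ≤ u → |(∫ v in (100 : ℝ)..u, aS v) - Phi u| ≤ C := by
  obtain ⟨C, hC, h⟩ := hE
  refine ⟨C + |Phi 100|, by positivity, fun u hu => ?_⟩
  obtain ⟨hi, he⟩ := hF u hu
  have h1 : (∫ v in (100 : ℝ)..u, aS v) = (∫ v in (100 : ℝ)..u, (ell ⟨3 / 2, v⟩).im) - ∫ v in (100 : ℝ)..u, AI v := by
    have hl : IntervalIntegrable (fun v : ℝ => (ell ⟨3 / 2, v⟩).im) volume 100 u := (continuous_im.comp ell_cont).intervalIntegrable _ _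
    rw [← intervalIntegral.integral_sub hl hi]
    refine intervalIntegral.integral_congr fun v _ => ?_
    exact aS_eq v
  rw [h1, he]
  have h2 : (∫ v in (100 : ℝ)..u, (ell ⟨3 / 2, v⟩).im) - (Phi 100 - Phi u) - Phi u = (∫ v in (100 : ℝ)..u, (ell ⟨3 / 2, v⟩).im) - Phi 100 := by
    ring
  rw [h2]
  exact (abs_sub _ _).trans (add_le_add_left (h u hu) _)

/-- the theorem on the scale of the resonator -/
theorem core (hA : S_AVER) (hF : S_FTC) (hE : S_EDGE) : ∃ c : ℝ, 0 < c ∧ ∀ᶠ T : ℝ in atTop, ∀ σ : ℝ, σ = 1 ∨ σ = -1 →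
    ∃ u : ℝ, 4 / 5 * T ≤ u ∧ u ≤ 12 / 5 * T ∧ c * VV T ≤ σ * ∫ v in (100 : ℝ)..u, aS v := by
  have hKB : S_KB := Pool.Agent.Q177.UM.t_KB
  have hST : S_STM := b_STM
  obtain ⟨ψ₁, k₀, hK⟩ := b_KER
  obtain ⟨θ₀, c₀, C₀, hθ0, hθ1, hc0, hC0, hTB⟩ := b_TAIL
  obtain ⟨CB, hCB0, hCB⟩ := anti hF hE
  set δ : ℝ := min (c₀ / 32) (1 / 100) with hδd
  have hδ : 0 < δ := lt_min (by positivity) (by norm_num)
  have hδ1 : δ ≤ 1 / 100 := min_le_right _ _
  have hδ2 : 16 * δ * ((1 : ℕ) + 1) ≤ c₀ := by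
    have : δ ≤ c₀ / 32 := min_le_left _ _
    push_cast
    linarith
  obtain ⟨CA, hCA0, hAv⟩ := hA ψ₁ k₀ hK δ hδ (by linarith)
  obtain ⟨CS, hCS0, hSS⟩ := hST θ₀ c₀ C₀ hθ0 hθ1 hc0 hC0 hTB 1 δ hδ hδ2
  obtain ⟨c₁, hc₁, hRe⟩ := reso ψ₁ k₀ hK δ hδ hδ1 (θ₀ / 2) (by positivity)
  refine ⟨c₁ / 4, by positivity, ?_⟩
  filter_upwards [hAv, hSS, hRe, VV_tendsto ((2 * CB + 2 * CA + CA * CS) / (c₁ / 4)), VV_tendsto 1, eventually_ge_atTop 1000,
    Real.tendsto_log_atTop.eventually_ge_atTop 1] with T hAv hSS hRe hV hV0 hT hL1 σ hσ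
  by_contra hcon
  push Not at hcon
  obtain ⟨N, r, hN, hrs, hN2, hlow⟩ := hRe σ hσ
  have hT0 : 0 < T := by linarith
  have hT1 : (1 : ℝ) ≤ T := by linarith
  have hσa : |σ| = 1 := by rcases hσ with h | h <;> rw [h] <;> simp
  set D : ℝ := δ * Real.log T with hD
  have hD0 : 0 < D := by positivity
  set W : ℝ := c₁ / 4 * VV T with hW
  have hW0 : 0 ≤ W := mul_nonneg (by positivity) (by linarith)
  -- the upper bound of the prime sum
  have hup : ∀ t, T ≤ t → t ≤ 2 * T → σ * QS ψ₁ D t ≤ W + CB + CA + CA * SS δ T t := by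
    intro t ht1 ht2
    obtain ⟨U1, U2, hU1, hU1', hU2, hU2', hint, habs⟩ := hAv t (by linarith) (by linarith)
    have hU : U1 ≤ U2 := by linarith
    have h1 : ∀ u, U1 ≤ u → u ≤ U2 → σ * Phi u ≤ W + CB := by
      intro u hu1 hu2
      have h2 := hcon u (by linarith) (by linarith)
      have h3 := hCB u (by linarith)
      have h4 : |σ * ((∫ v in (100 : ℝ)..u, aS v) - Phi u)| ≤ CB := by rw [abs_mul, hσa, one_mul]; exact h3
      have h5 := (abs_le.1 h4).1
      have h6 : σ * ((∫ v in (100 : ℝ)..u, aS v) - Phi u) = σ * (∫ v in (100 : ℝ)..u, aS v) - σ * Phi u := by ring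
      linarith
    have h2 := upper hKB hK (t := t) hD0 hU (by linarith) hint h1
    have h3 : |σ * ((∫ u in U1..U2, D * k₀ (D * (u - t)) * Phi u) - QS ψ₁ D t)| ≤ CA * (1 + SS δ T t) := by
      rw [abs_mul, hσa, one_mul]
      exact habs
    have h4 := (abs_le.1 h3).1
    have h5 : σ * ((∫ u in U1..U2, D * k₀ (D * (u - t)) * Phi u) - QS ψ₁ D t) =
        σ * (∫ u in U1..U2, D * k₀ (D * (u - t)) * Phi u) - σ * QS ψ₁ D t := by ring
    have h6 : CA * (1 + SS δ T t) = CA + CA * SS δ T t := by ring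
    linarith
  -- integration
  have hc : Continuous fun t => ‖dp N r t‖ ^ 2 := ((Pool.Agent.Q84.UM.t_DPM.2.2 N r 0).2).norm.pow 2
  have hSc : Continuous fun t => SS δ T t := Pool.Agent.Q247.UM.SS_cont δ T (by linarith)
  have hQc : Continuous fun t => QS ψ₁ D t := by
    have : (fun t => QS ψ₁ D t) = fun t => (dp ⌊Real.exp D⌋₊ (fun n => (qc ψ₁ D n : ℂ)) t).re := funext fun t => QS_eq ψ₁ D t
    rw [this]
    exact continuous_re.comp (Pool.Agent.Q84.UM.t_DPM.2.2 _ _ 0).2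
  have h1 : σ * (∫ t in T..(2 * T), QS ψ₁ D t * ‖dp N r t‖ ^ 2) ≤
      ∫ t in T..(2 * T), ((W + CB + CA) * ‖dp N r t‖ ^ 2 + CA * (SS δ T t ^ 1 * ‖dp N r t‖ ^ 2)) := by
    rw [← intervalIntegral.integral_const_mul]
    refine intervalIntegral.integral_mono_on (by linarith) (((hQc.mul hc).const_mul _).intervalIntegrable _ _)
      (Continuous.intervalIntegrable ?_ _ _) fun t ht => ?_
    · exact (hc.const_mul _).add (((hSc.pow 1).mul hc).const_mul _)
    · have h2 := mul_le_mul_of_nonneg_right (hup t ht.1 ht.2) (sq_nonneg ‖dp N r t‖)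
      rw [pow_one]
      linarith
  have i1 : IntervalIntegrable (fun t => (W + CB + CA) * ‖dp N r t‖ ^ 2) volume T (2 * T) := (hc.const_mul _).intervalIntegrable _ _
  have i2 : IntervalIntegrable (fun t => CA * (SS δ T t ^ 1 * ‖dp N r t‖ ^ 2)) volume T (2 * T) :=
    (((hSc.pow 1).mul hc).const_mul _).intervalIntegrable _ _
  rw [intervalIntegral.integral_add i1 i2, intervalIntegral.integral_const_mul, intervalIntegral.integral_const_mul] at h1
  have hN14 : (N : ℝ) ≤ T ^ (1 / 4 : ℝ) := hN.trans (Real.rpow_le_rpow_of_exponent_le hT1 (by linarith))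
  have h2 := (Pool.Agent.Q84.UM.t_MVL T (by linarith) N hN14 r).2
  have h3 : (∫ t in T..(2 * T), SS δ T t ^ 1 * ‖dp N r t‖ ^ 2) ≤ CS * T * N2 N r := by
    refine le_trans ?_ (hSS N hN r)
    refine intervalIntegral.integral_mono_interval (by linarith) (by linarith) (by linarith) ?_
      ((((hSc.pow 1).mul hc)).intervalIntegrable _ _)
    exact Eventually.of_forall fun t => mul_nonneg (pow_nonneg (Pool.Agent.Q247.UM.SS_nonneg δ T t) 1) (sq_nonneg _)
  have h4 : (W + CB + CA) * (∫ t in T..(2 * T), ‖dp N r t‖ ^ 2) ≤ (W + CB + CA) * (2 * T * N2 N r) :=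
    mul_le_mul_of_nonneg_left h2 (by linarith)
  have h5 : CA * (∫ t in T..(2 * T), SS δ T t ^ 1 * ‖dp N r t‖ ^ 2) ≤ CA * (CS * T * N2 N r) := mul_le_mul_of_nonneg_left h3 hCA0
  have h6 : c₁ * VV T * (T * N2 N r) ≤ (2 * W + (2 * CB + 2 * CA + CA * CS)) * (T * N2 N r) := by
    have : c₁ * VV T * (T * N2 N r) ≤ σ * ∫ t in T..(2 * T), QS ψ₁ D t * ‖dp N r t‖ ^ 2 := hlow
    refine this.trans (h1.trans ((add_le_add h4 h5).trans (le_of_eq ?_)))
    ring
  have hTN : 0 < T * N2 N r := by positivity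
  have h7 := le_of_mul_le_mul_right h6 hTN
  rw [div_le_iff₀ (by positivity)] at hV
  have h8 : W = c₁ / 4 * VV T := rfl
  -- `c₁ V ≤ c₁ V / 2 + c₁ V / 4`
  have h9 : c₁ * VV T ≤ 3 / 4 * (c₁ * VV T) := by
    calc c₁ * VV T ≤ 2 * W + (2 * CB + 2 * CA + CA * CS) := h7
      _ ≤ 2 * (c₁ / 4 * VV T) + VV T * (c₁ / 4) := add_le_add (le_of_eq (by rw [h8])) hV
      _ = 3 / 4 * (c₁ * VV T) := by ring
  have h10 : c₁ * VV T ≤ 0 := by linarith
  have h11 : VV T ≤ 0 := by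
    by_contra h
    push Not at h
    have : 0 < c₁ * VV T := mul_pos hc₁ h
    linarith
  linarith

end

end Pool.Agent.U196.SO
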