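import Pool.Agent.U196.SO.GW
import Pool.Agent.U196.SO.Fin
import Pool.Agent.U196.SO.FTCb

/-!
# Project SL (helper196): the one-sided criterion for the Lindelof hypothesis
-/

set_option autoImplicit false

namespace Pool.Agent.U196.SO

open Filter Topology MeasureTheory Complex
open Pool.Agent.Q97.UM
open Pool.Agent.U761.SZ (aS)
open Pool.Agent.U575.MU (LH FewPts LH_iff_pts)

noncomputable section

lemma gmass {k t c d : ℝ} (hk : 0 < k) (hcd : c ≤ d) : ∫ u in c..d, Real.exp (-(k * (u - t) ^ 2)) ≤ Real.sqrt (Real.pi / k) := by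
  set g : ℝ → ℝ := fun x => Real.exp (-k * x ^ 2) with hg
  have hgi : Integrable g := integrable_exp_neg_mul_sq hk
  have hgI : ∫ x : ℝ, g x = Real.sqrt (Real.pi / k) := integral_gaussian k
  have h1 : Integrable fun y : ℝ => g (y - t) := hgi.comp_sub_right t
  have e : (∫ u in c..d, Real.exp (-(k * (u - t) ^ 2))) = ∫ u in c..d, g (u - t) := by
    refine intervalIntegral.integral_congr fun u _ => ?_
    simp only [hg, neg_mul]
  rw [e, intervalIntegral.integral_of_le hcd]
  refine (setIntegral_le_integral h1 (Eventually.of_forall fun y => (Real.exp_pos _).le)).trans ?_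
  rw [integral_sub_right_eq_self (μ := volume) g t, hgI]

lemma mz_zero (z : ℂ) : (analyticOrderNatAt (fun s => iteratedDeriv 0 riemannZeta s - 0) z : ℝ) = (mz z : ℝ) := by
  have e : (fun s => iteratedDeriv 0 riemannZeta s - 0) = riemannZeta := by
    funext s
    rw [iteratedDeriv_zero, sub_zero]
  rw [e]
  rfl

/-- from the upper bound to Lindelof -/
theorem crit_mpr (hA : S_GAVER) (hT : S_GTAIL) (hF : S_FTC) (hE : S_EDGE)
    (h : ∀ ε : ℝ, 0 < ε → ∃ T₀ : ℝ, ∀ u : ℝ, T₀ ≤ u → (∫ v in (100 : ℝ)..u, aS v) ≤ ε * Real.log u) : LH := by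
  rw [LH_iff_pts 0 0]
  intro d δ hd hδ
  obtain ⟨CB, hCB0, hCB⟩ := anti hF hE
  set c : ℝ := d ^ 2 / 12 with hc
  have hc0 : 0 < c := by positivity
  obtain ⟨k, hk, hk1, hTl⟩ := hT (c * δ / 4) (by positivity)
  obtain ⟨Ck, hCk0, hAv⟩ := hA k hk hk1
  have hpi := Real.pi_pos
  set G : ℝ := Real.sqrt (Real.pi / k) with hG
  have hG0 : 0 < G := Real.sqrt_pos.2 (by positivity)
  set ε₁ : ℝ := c * δ / 4 * Real.pi / G with hε₁
  have hε₁0 : 0 < ε₁ := by positivity
  obtain ⟨T₁, hT₁⟩ := h ε₁ hε₁0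
  have hlog := Real.tendsto_log_atTop.eventually_ge_atTop ((1 / (2 * Real.pi) * (CB * G + Ck)) / (c * δ / 2))
  obtain ⟨T₀, hT₀⟩ := Filter.eventually_atTop.1 (hTl.and (hAv.and hlog))
  refine ⟨max (max T₀ 1000) (2 * |T₁|), fun t ht S hS => ?_⟩
  obtain ⟨htail, ⟨U1, U2, hU1, hU1', hU2, hU2', hint, habs⟩, hlog⟩ := hT₀ t ((le_max_left _ _).trans ((le_max_left _ _).trans ht))
  have ht1000 : 1000 ≤ t := (le_max_right _ _).trans ((le_max_left _ _).trans ht)
  have htT₁ : 2 * |T₁| ≤ t := (le_max_right _ _).trans ht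
  have ht0 : 0 < t := by linarith
  have hL0 : 0 < Real.log t := Real.log_pos (by linarith)
  have hU : U1 ≤ U2 := by linarith
  set W : ℂ → ℝ := fun s => ∫ a in (1 / 2 : ℝ)..(3 / 2), wl k t a s with hW
  -- the zeros of the window
  have hZw : ∀ s ∈ Zw t U1 U2, 1 / 2 < s.re ∧ s.re < 1 ∧ s ∈ ZD t := by
    intro s hs
    unfold Zw at hs
    rw [Finset.mem_filter] at hs
    have h1 := (Pool.Agent.Q257.UM.mem_ZD (by linarith) s).1 hs.1
    exact ⟨hs.2.1, h1.2.1, hs.1⟩
  have hSZ : ∀ z ∈ S, z ∈ (Zw t U1 U2).filter (fun s => k * |s.im - t| ≤ 1) ∧ c ≤ W z := by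
    intro z hz
    obtain ⟨z1, z2, z3, z4⟩ := hS z hz
    rw [iteratedDeriv_zero] at z4
    have z5 : z.re < 1 := by
      by_contra hcon
      push Not at hcon
      exact riemannZeta_ne_zero_of_one_le_re hcon z4
    have z6 : |z.im - t| ≤ 1 := by
      rw [abs_le]
      constructor <;> linarith
    have z7 : k * |z.im - t| ≤ 1 := by nlinarith [abs_nonneg (z.im - t)]
    refine ⟨?_, ?_⟩
    · rw [Finset.mem_filter]
      refine ⟨?_, z7⟩
      unfold Zw
      rw [Finset.mem_filter]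
      refine ⟨(Pool.Agent.Q257.UM.mem_ZD (by linarith) z).2 ⟨by linarith, z5, by linarith, by linarith, z4⟩, by linarith, by linarith, by linarith⟩
    · have h1 := (gw k t z hk hk1 (by linarith) z5).1 z6
      refine le_trans ?_ h1
      rw [hc]
      have : d ^ 2 ≤ (z.re - 1 / 2) ^ 2 := pow_le_pow_left₀ hd.le (by linarith) 2
      linarith
  -- the chain
  have s1 : c * ∑ z ∈ S, (mz z : ℝ) ≤ ∑ s ∈ (Zw t U1 U2).filter (fun s => k * |s.im - t| ≤ 1), (mz s : ℝ) * W s := by
    rw [Finset.mul_sum]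
    refine le_trans (Finset.sum_le_sum (g := fun z => (mz z : ℝ) * W z) fun z hz => ?_) (Finset.sum_le_sum_of_subset_of_nonneg
      (fun z hz => (hSZ z hz).1) fun s hs _ => ?_)
    · rw [mul_comm]
      exact mul_le_mul_of_nonneg_left (hSZ z hz).2 (Nat.cast_nonneg _)
    · rw [Finset.mem_filter] at hs
      obtain ⟨h1, h2, -⟩ := hZw s hs.1
      exact mul_nonneg (Nat.cast_nonneg _) ((gw k t s hk hk1 h1 h2).2.1 hs.2)
  have s2 : ∑ s ∈ (Zw t U1 U2).filter (fun s => k * |s.im - t| ≤ 1), (mz s : ℝ) * W s +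
      ∑ s ∈ (Zw t U1 U2).filter (fun s => ¬ k * |s.im - t| ≤ 1), (mz s : ℝ) * W s = ∑ s ∈ Zw t U1 U2, (mz s : ℝ) * W s :=
    Finset.sum_filter_add_sum_filter_not _ _ _
  have s3 : -∑ s ∈ (Zw t U1 U2).filter (fun s => ¬ k * |s.im - t| ≤ 1), (mz s : ℝ) * W s ≤ c * δ / 4 * Real.log t := by
    refine le_trans ?_ htail
    rw [← Finset.sum_neg_distrib]
    refine le_trans (Finset.sum_le_sum (g := fun s => (mz s : ℝ) * Real.exp (-(k * (s.im - t) ^ 2))) fun s hs => ?_)
      (Finset.sum_le_sum_of_subset_of_nonneg (fun s hs => ?_) fun s _ _ => by positivity)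
    · rw [Finset.mem_filter] at hs
      obtain ⟨h1, h2, -⟩ := hZw s hs.1
      have h3 := (abs_le.1 (gw k t s hk hk1 h1 h2).2.2).1
      rw [← mul_neg]
      exact mul_le_mul_of_nonneg_left (by simp only [hW]; linarith) (Nat.cast_nonneg _)
    · rw [Finset.mem_filter] at hs ⊢
      exact ⟨(hZw s hs.1).2.2, not_le.1 hs.2⟩
  -- the upper bound of the Gaussian mean
  have s4 : (∫ u in U1..U2, Real.exp (-(k * (u - t) ^ 2)) * Phi u) ≤ (2 * ε₁ * Real.log t + CB) * G := by
    have hcont : Continuous fun u : ℝ => Real.exp (-(k * (u - t) ^ 2)) := by fun_prop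
    calc (∫ u in U1..U2, Real.exp (-(k * (u - t) ^ 2)) * Phi u) ≤
          ∫ u in U1..U2, Real.exp (-(k * (u - t) ^ 2)) * (2 * ε₁ * Real.log t + CB) := by
          refine intervalIntegral.integral_mono_on hU hint ((hcont.mul continuous_const).intervalIntegrable _ _) fun u hu => ?_
          refine mul_le_mul_of_nonneg_left ?_ (Real.exp_pos _).le
          have hu1 : T₁ ≤ u := by
            have := le_abs_self T₁
            linarith [hu.1]
          have h1 := hT₁ u hu1
          have h2 := (abs_le.1 (hCB u (by linarith [hu.1]))).1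
          have h3 : Real.log u ≤ 2 * Real.log t := by
            have h4 : u ≤ t ^ 2 := by nlinarith [hu.2]
            have h5 := Real.log_le_log (by linarith [hu.1]) h4
            rwa [Real.log_pow, Nat.cast_ofNat] at h5
          have h6 : ε₁ * Real.log u ≤ ε₁ * (2 * Real.log t) := mul_le_mul_of_nonneg_left h3 hε₁0.le
          linarith
      _ = (∫ u in U1..U2, Real.exp (-(k * (u - t) ^ 2))) * (2 * ε₁ * Real.log t + CB) := intervalIntegral.integral_mul_const _ _
      _ ≤ G * (2 * ε₁ * Real.log t + CB) := mul_le_mul_of_nonneg_right (gmass hk hU) (by positivity)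
      _ = _ := mul_comm _ _
  have s5 := (abs_le.1 habs).1
  have s6 : 2 * Real.pi * ∑ s ∈ Zw t U1 U2, (mz s : ℝ) * W s ≤ (2 * ε₁ * Real.log t + CB) * G + Ck := by
    show 2 * Real.pi * ∑ s ∈ Zw t U1 U2, (mz s : ℝ) * (∫ a in (1 / 2 : ℝ)..(3 / 2), wl k t a s) ≤ _
    linarith
  have s7 : ∑ s ∈ Zw t U1 U2, (mz s : ℝ) * W s ≤ c * δ / 4 * Real.log t + c * δ / 2 * Real.log t := by
    have h1 : ∑ s ∈ Zw t U1 U2, (mz s : ℝ) * W s ≤ 1 / (2 * Real.pi) * ((2 * ε₁ * Real.log t + CB) * G + Ck) := by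
      rw [one_div_mul_eq_div, le_div_iff₀ (by positivity)]
      linarith
    refine h1.trans ?_
    have h2 : 1 / (2 * Real.pi) * ((2 * ε₁ * Real.log t + CB) * G + Ck) =
        c * δ / 4 * Real.log t + 1 / (2 * Real.pi) * (CB * G + Ck) := by
      rw [hε₁]
      field_simp
      ring
    rw [h2]
    rw [div_le_iff₀ (by positivity)] at hlog
    linarith
  have s8 : c * ∑ z ∈ S, (mz z : ℝ) ≤ c * (δ * Real.log t) := by
    have h1 : c * (δ * Real.log t) = c * δ / 4 * Real.log t + c * δ / 2 * Real.log t + c * δ / 4 * Real.log t := by ring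
    rw [h1]
    linarith
  have s9 := le_of_mul_le_mul_left s8 hc0
  refine le_trans (le_of_eq ?_) s9
  exact Finset.sum_congr rfl fun z _ => mz_zero z

/-- from Lindelof to the upper bound -/
theorem crit_mp (hL : S_LHR) (hF : S_FTC) (hE : S_EDGE) (h : LH) (ε : ℝ) (hε : 0 < ε) :
    ∃ T₀ : ℝ, ∀ u : ℝ, T₀ ≤ u → (∫ v in (100 : ℝ)..u, aS v) ≤ ε * Real.log u := by
  obtain ⟨CB, hCB0, hCB⟩ := anti hF hE
  obtain ⟨T₁, hT₁⟩ := hL h (ε / 2) (by positivity)
  obtain ⟨T₂, hT₂⟩ := Filter.eventually_atTop.1 (Real.tendsto_log_atTop.eventually_ge_atTop (CB / (ε / 2)))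
  refine ⟨max (max T₁ T₂) 100, fun u hu => ?_⟩
  have hu1 : T₁ ≤ u := (le_max_left _ _).trans ((le_max_left _ _).trans hu)
  have hu2 : T₂ ≤ u := (le_max_right _ _).trans ((le_max_left _ _).trans hu)
  have hu3 : 100 ≤ u := (le_max_right _ _).trans hu
  have hu0 : 0 < u := by linarith
  have h1 := (abs_le.1 (hCB u hu3)).2
  have h2 : Phi u ≤ ε / 2 * Real.log u := by
    have h3 : Phi u ≤ ∫ _ in (1 / 2 : ℝ)..(3 / 2), ε / 2 * Real.log u := by
      unfold Phi
      refine intervalIntegral.integral_mono_on (by norm_num) (log_int u hu3) (by simp) fun x hx => ?_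
      have h4 := hT₁ u hu1 x hx.1 hx.2
      rcases eq_or_ne (riemannZeta ⟨x, u⟩) 0 with h0 | h0
      · rw [h0, norm_zero, Real.log_zero]
        have := Real.log_nonneg (show (1 : ℝ) ≤ u by linarith)
        positivity
      · have h5 := Real.log_le_log (norm_pos_iff.2 h0) h4
        rwa [Real.log_rpow hu0] at h5
    rw [intervalIntegral.integral_const, smul_eq_mul] at h3
    linarith
  have h3 := hT₂ u hu2
  rw [div_le_iff₀ (by positivity)] at h3
  linarith

end

end Pool.Agent.U196.SO
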