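import Pool.Agent.U196.SO.Stm2

/-!
# Project SL (helper196): the weights of the zeros
-/

set_option autoImplicit false

namespace Pool.Agent.U196.SO

open Filter Topology MeasureTheory Complex

noncomputable section

lemma gk_re (k t σ : ℝ) (s : ℂ) : (gk k (s - (σ + t * I))).re =
    Real.exp (k * ((s.re - σ) ^ 2 - (s.im - t) ^ 2)) * Real.cos (2 * k * (s.re - σ) * (s.im - t)) := by
  unfold gk
  rw [Complex.exp_re]
  have e1 : ((k : ℂ) * (s - (σ + t * I)) ^ 2).re = k * ((s.re - σ) ^ 2 - (s.im - t) ^ 2) := by
    rw [Complex.re_ofReal_mul, sq, Complex.mul_re]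
    simp
    ring_nf
    simp
  have e2 : ((k : ℂ) * (s - (σ + t * I)) ^ 2).im = 2 * k * (s.re - σ) * (s.im - t) := by
    rw [Complex.im_ofReal_mul, sq, Complex.mul_im]
    simp
    ring
  rw [e1, e2]

/-- the integrand -/
def gf (k t : ℝ) (s : ℂ) (σ : ℝ) : ℝ :=
  Real.exp (k * ((s.re - σ) ^ 2 - (s.im - t) ^ 2)) * Real.cos (2 * k * (s.re - σ) * (s.im - t))

lemma gf_cont (k t : ℝ) (s : ℂ) : Continuous (gf k t s) := by
  unfold gf
  fun_prop

lemma wl_eq (k t a : ℝ) (s : ℂ) : wl k t a s = ∫ σ in a..(max a s.re), gf k t s σ := by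
  unfold wl
  refine intervalIntegral.integral_congr fun σ _ => ?_
  exact gk_re k t σ s

lemma wl_cont (k t : ℝ) (s : ℂ) : Continuous fun a => wl k t a s := by
  have hi : ∀ a b, IntervalIntegrable (gf k t s) volume a b := fun a b => (gf_cont k t s).intervalIntegrable a b
  have hp := intervalIntegral.continuous_primitive hi 0
  have e : (fun a => wl k t a s) = fun a => (∫ σ in (0 : ℝ)..(max a s.re), gf k t s σ) - ∫ σ in (0 : ℝ)..a, gf k t s σ := by
    funext a
    rw [wl_eq, intervalIntegral.integral_interval_sub_left (hi _ _) (hi _ _)]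
  rw [e]
  exact (hp.comp (continuous_id.max continuous_const)).sub hp

/-- the lower bound of an interval integral by a constant -/
lemma int_ge {f : ℝ → ℝ} (hf : Continuous f) {a b c : ℝ} (hab : a ≤ b) (h : ∀ x ∈ Set.Icc a b, c ≤ f x) :
    c * (b - a) ≤ ∫ x in a..b, f x := by
  have h1 : (∫ _ in a..b, c) ≤ ∫ x in a..b, f x :=
    intervalIntegral.integral_mono_on hab (by simp) (hf.intervalIntegrable _ _) h
  rw [intervalIntegral.integral_const, smul_eq_mul] at h1
  linarith

theorem gw : S_GW := by
  intro k t s hk hk1 hs hs1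
  set y := s.im - t with hy
  refine ⟨fun h => ?_, fun h => ?_, ?_⟩
  · -- near zeros
    have h1 : ∀ a ∈ Set.Icc (1 / 2 : ℝ) (3 / 2), max 0 (s.re - a) / 6 ≤ wl k t a s := by
      intro a ha
      rw [wl_eq]
      have hma : a ≤ max a s.re := le_max_left _ _
      have h2 : ∀ σ ∈ Set.Icc a (max a s.re), 1 / 6 ≤ gf k t s σ ∨ s.re ≤ a := by
        intro σ hσ
        rcases le_or_gt s.re a with h | h
        · exact Or.inr h
        · left
          rw [max_eq_right h.le] at hσ
          have hx0 : 0 ≤ s.re - σ := by linarith [hσ.2]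
          have hx1 : s.re - σ ≤ 1 / 2 := by linarith [hσ.1, ha.1]
          have hy2 : y ^ 2 ≤ 1 := by
            rw [← sq_abs]
            nlinarith [abs_nonneg y]
          unfold gf
          have e1 : Real.exp (-1) ≤ Real.exp (k * ((s.re - σ) ^ 2 - (s.im - t) ^ 2)) := by
            refine Real.exp_le_exp.2 ?_
            rw [← hy]
            have : -(k * y ^ 2) ≤ k * ((s.re - σ) ^ 2 - y ^ 2) := by nlinarith [mul_nonneg hk.le (sq_nonneg (s.re - σ))]
            nlinarith
          have e2 : 1 / 2 ≤ Real.cos (2 * k * (s.re - σ) * (s.im - t)) := by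
            have h3 : |2 * k * (s.re - σ) * (s.im - t)| ≤ 1 := by
              rw [abs_mul, ← hy, abs_of_nonneg (by positivity)]
              have : 2 * k * (s.re - σ) ≤ 1 := by nlinarith
              nlinarith [abs_nonneg y, mul_nonneg (by positivity : (0 : ℝ) ≤ 2 * k) hx0]
            have h4 := Real.one_sub_sq_div_two_le_cos (x := 2 * k * (s.re - σ) * (s.im - t))
            have h5 : (2 * k * (s.re - σ) * (s.im - t)) ^ 2 ≤ 1 := by
              rw [← sq_abs]
              nlinarith [abs_nonneg (2 * k * (s.re - σ) * (s.im - t))]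
            linarith
          have e3 : 1 / 3 ≤ Real.exp (-1) := by
            rw [Real.exp_neg]
            have := Real.exp_one_lt_d9
            rw [le_inv_comm₀ (by norm_num) (Real.exp_pos _)]
            linarith
          calc (1 : ℝ) / 6 = 1 / 3 * (1 / 2) := by norm_num
            _ ≤ _ := mul_le_mul (e3.trans e1) e2 (by norm_num) (Real.exp_pos _).le
      rcases le_or_gt s.re a with h' | h'
      · rw [max_eq_left h', max_eq_left (by linarith), intervalIntegral.integral_same]
        norm_num
      · have h3 := int_ge (gf_cont k t s) hma (c := 1 / 6) (fun σ hσ => (h2 σ hσ).resolve_right (by linarith))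
        refine le_trans (le_of_eq ?_) h3
        rw [max_eq_right h'.le, max_eq_right (by linarith)]
        ring
    have h2 : (∫ a in (1 / 2 : ℝ)..(3 / 2), max 0 (s.re - a) / 6) ≤ ∫ a in (1 / 2 : ℝ)..(3 / 2), wl k t a s :=
      intervalIntegral.integral_mono_on (by norm_num) (Continuous.intervalIntegrable (by fun_prop) _ _)
        ((wl_cont k t s).intervalIntegrable _ _) h1
    refine le_trans ?_ h2
    have hc : Continuous fun a : ℝ => max 0 (s.re - a) / 6 := by fun_prop
    have h3 : (∫ a in (1 / 2 : ℝ)..s.re, (s.re - a) / 6) ≤ ∫ a in (1 / 2 : ℝ)..(3 / 2), max 0 (s.re - a) / 6 := by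
      have h4 : (∫ a in (1 / 2 : ℝ)..s.re, (s.re - a) / 6) ≤ ∫ a in (1 / 2 : ℝ)..s.re, max 0 (s.re - a) / 6 := by
        refine intervalIntegral.integral_mono_on hs.le (Continuous.intervalIntegrable (by fun_prop) _ _)
          (hc.intervalIntegrable _ _) fun a _ => ?_
        have := le_max_right 0 (s.re - a)
        linarith
      refine h4.trans ?_
      refine intervalIntegral.integral_mono_interval le_rfl hs.le (by linarith) ?_ (hc.intervalIntegrable _ _)
      exact Eventually.of_forall fun a => by
        show (0 : ℝ) ≤ max 0 (s.re - a) / 6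
        positivity
    refine le_trans (le_of_eq ?_) h3
    have hd : ∀ a ∈ Set.uIcc (1 / 2 : ℝ) s.re, HasDerivAt (fun a : ℝ => -(s.re - a) ^ 2 / 12) ((s.re - a) / 6) a := by
      intro a _
      have h5 : HasDerivAt (fun a : ℝ => s.re - a) (-1) a := by simpa using (hasDerivAt_id a).const_sub s.re
      have h6 : HasDerivAt (fun a : ℝ => -(s.re - a) ^ 2 / 12) (-(((2 : ℕ) : ℝ) * (s.re - a) ^ (2 - 1) * (-1)) / 12) a :=
        ((h5.fun_pow 2).fun_neg).div_const 12
      refine h6.congr_deriv ?_
      norm_num
      ring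
    rw [intervalIntegral.integral_eq_sub_of_hasDerivAt hd (Continuous.intervalIntegrable (by fun_prop) _ _)]
    ring
  · -- zeros in the middle range
    refine intervalIntegral.integral_nonneg (by norm_num) fun a ha => ?_
    rw [wl_eq]
    rcases le_or_gt s.re a with h' | h'
    · rw [max_eq_left h', intervalIntegral.integral_same]
    · refine intervalIntegral.integral_nonneg (le_max_left _ _) fun σ hσ => ?_
      rw [max_eq_right h'.le] at hσ
      have hx0 : 0 ≤ s.re - σ := by linarith [hσ.2]
      have hx1 : s.re - σ ≤ 1 / 2 := by linarith [hσ.1, ha.1]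
      unfold gf
      refine mul_nonneg (Real.exp_pos _).le (Real.cos_nonneg_of_mem_Icc ?_)
      have h3 : |2 * k * (s.re - σ) * (s.im - t)| ≤ 1 := by
        rw [abs_mul, ← hy, abs_of_nonneg (by positivity)]
        calc 2 * k * (s.re - σ) * |y| = 2 * (s.re - σ) * (k * |y|) := by ring
          _ ≤ 1 * 1 := mul_le_mul (by linarith) h (by positivity) (by norm_num)
          _ = 1 := by norm_num
      have hpi := Real.pi_gt_three
      have h4 := abs_le.1 h3
      exact ⟨by linarith [h4.1], by linarith [h4.2]⟩
  · -- all zeros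
    have h1 : ∀ a ∈ Set.uIoc (1 / 2 : ℝ) (3 / 2), ‖wl k t a s‖ ≤ Real.exp (-(k * (s.im - t) ^ 2)) := by
      intro a ha
      rw [Set.uIoc_of_le (by norm_num)] at ha
      rw [wl_eq]
      have h2 : ∀ σ ∈ Set.uIoc a (max a s.re), ‖gf k t s σ‖ ≤ 2 * Real.exp (-(k * (s.im - t) ^ 2)) := by
        intro σ hσ
        rw [Set.uIoc_of_le (le_max_left _ _)] at hσ
        have hσ2 : σ ≤ s.re := by
          rcases le_or_gt s.re a with h' | h'
          · rw [max_eq_left h'] at hσ
            exact absurd hσ.1 (not_lt.2 hσ.2)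
          · rw [max_eq_right h'.le] at hσ
            exact hσ.2
        have hx0 : 0 ≤ s.re - σ := by linarith
        have hx1 : s.re - σ ≤ 1 / 2 := by linarith [hσ.1, ha.1]
        unfold gf
        rw [norm_mul, Real.norm_of_nonneg (Real.exp_pos _).le, Real.norm_eq_abs]
        have e1 : Real.exp (k * ((s.re - σ) ^ 2 - (s.im - t) ^ 2)) ≤ 2 * Real.exp (-(k * (s.im - t) ^ 2)) := by
          have e2 : k * ((s.re - σ) ^ 2 - (s.im - t) ^ 2) = k * (s.re - σ) ^ 2 + -(k * (s.im - t) ^ 2) := by ring
          rw [e2, Real.exp_add]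
          refine mul_le_mul_of_nonneg_right ?_ (Real.exp_pos _).le
          have e3 : k * (s.re - σ) ^ 2 ≤ 1 / 4 := by nlinarith
          have e4 : Real.exp (1 / 4) ≤ 2 := by
            have h5 : (1 : ℝ) / 4 ≤ Real.log 2 := by
              have := Real.log_two_gt_d9
              linarith
            calc Real.exp (1 / 4) ≤ Real.exp (Real.log 2) := Real.exp_le_exp.2 h5
              _ = 2 := Real.exp_log (by norm_num)
          exact (Real.exp_le_exp.2 e3).trans e4
        calc _ ≤ 2 * Real.exp (-(k * (s.im - t) ^ 2)) * 1 := mul_le_mul e1 (Real.abs_cos_le_one _) (abs_nonneg _) (by positivity)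
          _ = _ := mul_one _
      have h3 := intervalIntegral.norm_integral_le_of_norm_le_const h2
      refine h3.trans ?_
      have h4 : |max a s.re - a| ≤ 1 / 2 := by
        rw [abs_of_nonneg (by linarith [le_max_left a s.re])]
        rcases le_or_gt s.re a with h' | h'
        · rw [max_eq_left h']
          linarith
        · rw [max_eq_right h'.le]
          linarith [ha.1]
      calc 2 * Real.exp (-(k * (s.im - t) ^ 2)) * |max a s.re - a| ≤ 2 * Real.exp (-(k * (s.im - t) ^ 2)) * (1 / 2) :=
            mul_le_mul_of_nonneg_left h4 (by positivity)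
        _ = _ := by ring
    have h2 := intervalIntegral.norm_integral_le_of_norm_le_const h1
    rw [Real.norm_eq_abs] at h2
    refine h2.trans (le_of_eq ?_)
    rw [show |(3 / 2 : ℝ) - 1 / 2| = 1 by norm_num, mul_one]

end

end Pool.Agent.U196.SO
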