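import Pool.Agent.U761.SZ.PSET

/-!
# Project SO (helper196): the parameters of the resonator
-/

set_option autoImplicit false

namespace Pool.Agent.U196.SO

open Finset Filter Topology
open Pool.Agent.U761.SZ (Pr Pr_sum_ge Pr_sq)

/-- the parameters -/
theorem par : ∃ m : ℕ, 1 ≤ m ∧ ∀ θ : ℝ, 0 < θ → ∃ c : ℝ, 0 < c ∧ ∀ᶠ L : ℝ in atTop, ∃ (y K : ℕ) (μ a : ℝ),
    1 ≤ K ∧ 0 < μ ∧ a = μ * ∑ p ∈ Pr y (y ^ m), (1 : ℝ) / p ∧ 10 * (μ * a) ≤ K ∧ (∀ p ∈ Pr y (y ^ m), μ ^ 2 ≤ (p : ℝ)) ∧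
    ∑ p ∈ Pr y (y ^ m), (μ ^ 2 / (p : ℝ)) ^ 2 ≤ μ ∧
    (∀ S ∈ (Pr y (y ^ m)).powerset, S.card ≤ K → ∏ p ∈ S, p ≤ y ^ (m * K)) ∧
    ((y ^ (m * K) : ℕ) : ℝ) ≤ Real.exp (θ * L) ∧
    (∀ p ∈ Pr y (y ^ m), Real.log p ≤ 2 * m * Real.log L) ∧
    2 * Real.sqrt (6 + 8 * ∑ p ∈ (Icc 1 (y ^ m)).filter Nat.Prime, (1 : ℝ) / p) ≤ a ∧
    c * Real.sqrt (L / Real.log L) ≤ a := by
  obtain ⟨C₀, hC₀⟩ := Pool.Agent.Erdos456.Mert.mertens_inv
  obtain ⟨C₃, hC₃, hM⟩ : ∃ C₃ : ℝ, 0 ≤ C₃ ∧ ∀ N : ℕ, 3 ≤ N →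
      |∑ p ∈ (Icc 1 N).filter Nat.Prime, (1 : ℝ) / p - Real.log (Real.log N)| ≤ C₃ :=
    ⟨|C₀|, abs_nonneg _, fun N hN => (hC₀ N hN).trans (le_abs_self _)⟩
  obtain ⟨m, hm⟩ := exists_nat_ge (Real.exp (2 * C₃ + 1))
  have hm1 : (1 : ℝ) ≤ m := (Real.one_le_exp (by positivity)).trans hm
  have hm1' : 1 ≤ m := by exact_mod_cast hm1
  have hm0 : (0 : ℝ) < m := by linarith
  refine ⟨m, hm1', fun θ hθ => ?_⟩
  set c₁ : ℝ := θ / (2 * m) with hc₁
  have hc₁0 : 0 < c₁ := by positivity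
  -- asymptotics
  have hlogL : Tendsto (fun L : ℝ => Real.log L) atTop atTop := Real.tendsto_log_atTop
  have hloglin : ∀ ε : ℝ, 0 < ε → ∀ᶠ L : ℝ in atTop, Real.log L ≤ ε * L := by
    intro ε hε
    have h1 := (Real.isLittleO_log_id_atTop).bound hε
    filter_upwards [h1, eventually_ge_atTop 1] with L h1 hL
    rwa [Real.norm_of_nonneg (Real.log_nonneg hL), id, Real.norm_of_nonneg (by linarith)] at h1
  -- the final inequality for `a`
  have hfin : ∀ᶠ L : ℝ in atTop, 4 * (6 + 8 * (Real.log (m * (2 * Real.log L)) + C₃)) ≤ c₁ / 20 * (L / Real.log L) := by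
    have h1 : Tendsto (fun L : ℝ => L / Real.log L ^ 2) atTop atTop := by
      have h2 : Tendsto (fun L : ℝ => Real.log L ^ 2 / L) atTop (𝓝 0) := by
        have := (isLittleO_log_rpow_rpow_atTop (s := 1) 2 (by norm_num)).tendsto_div_nhds_zero
        refine this.congr' ?_
        filter_upwards [eventually_ge_atTop 1] with L hL
        rw [Real.rpow_one, Real.rpow_two]
      have h3 : Tendsto (fun L : ℝ => Real.log L ^ 2 / L) atTop (𝓝[>] 0) := by
        refine tendsto_nhdsWithin_iff.2 ⟨h2, ?_⟩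
        filter_upwards [eventually_gt_atTop 1] with L hL
        have := Real.log_pos hL
        have h0 : 0 < L := by linarith
        exact div_pos (by positivity) h0
      refine (tendsto_inv_nhdsGT_zero.comp h3).congr fun L => ?_
      simp
    filter_upwards [h1.eventually_ge_atTop ((4 * (6 + 8 * (2 * m + C₃))) / (c₁ / 20)), hlogL.eventually_ge_atTop 1] with L h1 h2
    rw [div_le_iff₀ (by positivity)] at h1
    have h3 : Real.log (m * (2 * Real.log L)) ≤ m * (2 * Real.log L) := Real.log_le_self (by positivity)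
    have h4 : 4 * (6 + 8 * (Real.log (m * (2 * Real.log L)) + C₃)) ≤ (4 * (6 + 8 * (2 * m + C₃))) * Real.log L := by
      have h5 : (6 : ℝ) ≤ 6 * Real.log L := by linarith
      have h6 : C₃ ≤ C₃ * Real.log L := le_mul_of_one_le_right hC₃ h2
      nlinarith
    refine h4.trans ?_
    have h5 : L / Real.log L ^ 2 * (c₁ / 20) * Real.log L = c₁ / 20 * (L / Real.log L) := by
      have : Real.log L ≠ 0 := by linarith
      field_simp
    rw [← h5]
    exact mul_le_mul_of_nonneg_right h1 (by linarith)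
  have hKbig : ∀ᶠ L : ℝ in atTop, 2 ≤ c₁ * (L / Real.log L) := by
    filter_upwards [hloglin (c₁ / 2) (by positivity), hlogL.eventually_ge_atTop 1] with L h1 h2
    rw [← mul_div_assoc, le_div_iff₀ (by linarith)]
    linarith
  have hKle : ∀ᶠ L : ℝ in atTop, c₁ * (L / Real.log L) ≤ L := by
    filter_upwards [hlogL.eventually_ge_atTop (max c₁ 1), eventually_ge_atTop 1] with L h1 h2
    have h3 : c₁ ≤ Real.log L := (le_max_left _ _).trans h1
    have h4 : 1 ≤ Real.log L := (le_max_right _ _).trans h1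
    rw [← mul_div_assoc, div_le_iff₀ (by linarith), mul_comm]
    exact mul_le_mul_of_nonneg_left h3 (by linarith)
  refine ⟨Real.sqrt (c₁ / 20), by positivity, ?_⟩
  filter_upwards [hfin, hKbig, hKle, hlogL.eventually_ge_atTop 2, eventually_ge_atTop 4] with L hfin hKbig hKle hl2 hL4
  have hL0 : 0 < L := by linarith
  have hl0 : 0 < Real.log L := by linarith
  set y : ℕ := ⌊L ^ 2⌋₊ with hy
  have hL2 : (16 : ℝ) ≤ L ^ 2 := by nlinarith
  have hyle : (y : ℝ) ≤ L ^ 2 := Nat.floor_le (by positivity)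
  have hyge : L ^ 2 - 1 < (y : ℝ) := by
    have := Nat.lt_floor_add_one (L ^ 2)
    linarith
  have hyL : L ^ 2 / 2 ≤ y := by linarith
  have hy8 : (8 : ℝ) ≤ y := by linarith
  have hy8' : 8 ≤ y := by exact_mod_cast hy8
  have hy0 : (0 : ℝ) < y := by linarith
  have hly : Real.log y ≤ 2 * Real.log L := by
    have h1 := Real.log_le_log hy0 hyle
    rwa [Real.log_pow, Nat.cast_ofNat] at h1
  have hly1 : 1 ≤ Real.log y := by
    rw [Real.le_log_iff_exp_le hy0]
    have := Real.exp_one_lt_d9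
    linarith
  set X : ℕ := y ^ m with hX
  have hyX : y ≤ X := Nat.le_self_pow (by omega) y
  have hX3 : 3 ≤ X := by omega
  have hlX : Real.log X = m * Real.log y := by rw [hX]; push_cast; rw [Real.log_pow]
  set S : ℝ := ∑ p ∈ Pr y X, (1 : ℝ) / p with hS
  have hSge : 1 ≤ S := by
    have h1 := Pr_sum_ge y X
    have h2 := (abs_le.1 (hM X hX3)).1
    have h3 := (abs_le.1 (hM y (by omega))).2
    have h4 : Real.log (Real.log X) = Real.log m + Real.log (Real.log y) := by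
      rw [hlX, Real.log_mul hm0.ne' (by linarith)]
    have h5 : 2 * C₃ + 1 ≤ Real.log m := by rw [Real.le_log_iff_exp_le hm0]; exact hm
    linarith
  have hall : ∑ p ∈ (Icc 1 X).filter Nat.Prime, (1 : ℝ) / p ≤ Real.log (m * (2 * Real.log L)) + C₃ := by
    have h2 := (abs_le.1 (hM X hX3)).2
    have h3 : Real.log (Real.log X) ≤ Real.log (m * (2 * Real.log L)) := by
      refine Real.log_le_log (by rw [hlX]; positivity) ?_
      rw [hlX]
      exact mul_le_mul_of_nonneg_left hly hm0.le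
    linarith
  have hSle : S ≤ Real.log (m * (2 * Real.log L)) + C₃ := by
    refine le_trans ?_ hall
    refine Finset.sum_le_sum_of_subset_of_nonneg ?_ fun p _ _ => by positivity
    intro p hp
    simp only [Pr, mem_filter, mem_Icc] at hp ⊢
    exact ⟨hp.1, hp.2.1⟩
  have hS0 : 0 < S := by linarith
  set K : ℕ := ⌊c₁ * (L / Real.log L)⌋₊ with hK
  have hKge : c₁ * (L / Real.log L) / 2 ≤ K := by
    have := Nat.lt_floor_add_one (c₁ * (L / Real.log L))
    rw [← hK] at this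
    linarith
  have hKle' : (K : ℝ) ≤ c₁ * (L / Real.log L) := Nat.floor_le (by positivity)
  have hK1 : (1 : ℝ) ≤ K := by linarith
  have hK1' : 1 ≤ K := by exact_mod_cast hK1
  set μ : ℝ := Real.sqrt (K / (10 * S)) with hμ
  have hμ2 : μ ^ 2 = K / (10 * S) := Real.sq_sqrt (by positivity)
  have hμ0 : 0 < μ := Real.sqrt_pos.2 (by positivity)
  have hSK : 10 * S ≤ K := by
    have h1 : 0 ≤ c₁ / 20 * (L / Real.log L) := by positivity
    have h2 : 32 * S ≤ c₁ / 20 * (L / Real.log L) := by linarith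
    have h3 : c₁ / 20 * (L / Real.log L) = c₁ * (L / Real.log L) / 2 / 10 := by ring
    linarith
  have hμ1 : 1 ≤ μ := by
    rw [hμ]
    refine Real.one_le_sqrt.2 ?_
    rw [le_div_iff₀ (by positivity), one_mul]
    exact hSK
  have hμK : μ ^ 2 ≤ K / 10 := by
    rw [hμ2]
    exact div_le_div_of_nonneg_left (by positivity) (by norm_num) (by linarith)
  have ha2 : (μ * S) ^ 2 = K * S / 10 := by
    rw [mul_pow, hμ2]
    field_simp
  have haK : (K : ℝ) / 10 ≤ (μ * S) ^ 2 := by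
    rw [ha2]
    have : (K : ℝ) * 1 ≤ K * S := mul_le_mul_of_nonneg_left hSge (by positivity)
    linarith
  have haL : c₁ / 20 * (L / Real.log L) ≤ (μ * S) ^ 2 := by
    have h3 : c₁ / 20 * (L / Real.log L) = c₁ * (L / Real.log L) / 2 / 10 := by ring
    linarith
  have haS : 0 ≤ μ * S := by positivity
  have hyP : ∀ p ∈ Pr y X, (y : ℝ) < p ∧ p ≤ X ∧ 0 < p := by
    intro p hp
    simp only [Pr, mem_filter, mem_Icc] at hp
    exact ⟨by exact_mod_cast hp.2.2, hp.1.2, hp.1.1⟩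
  refine ⟨y, K, μ, μ * S, hK1', hμ0, rfl, ?_, ?_, ?_, ?_, ?_, ?_, ?_, ?_⟩
  · rw [← mul_assoc μ, ← sq, hμ2]
    refine le_of_eq ?_
    field_simp
  · intro p hp
    have := (hyP p hp).1
    have h1 : (K : ℝ) ≤ L := hKle'.trans hKle
    have h2 : L ≤ L ^ 2 / 2 := by nlinarith
    linarith
  · have h1 := Pr_sq y X (by omega)
    have e1 : ∑ p ∈ Pr y X, (μ ^ 2 / (p : ℝ)) ^ 2 = (μ ^ 2) ^ 2 * ∑ p ∈ Pr y X, (1 : ℝ) / (p : ℝ) ^ 2 := by
      rw [mul_sum]
      exact sum_congr rfl fun p _ => by ring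
    rw [e1]
    have h2 : (K : ℝ) ≤ L := hKle'.trans hKle
    have h3 : (μ ^ 2) ^ 2 ≤ (L / 10) ^ 2 := pow_le_pow_left₀ (by positivity) (hμK.trans (by linarith)) 2
    calc (μ ^ 2) ^ 2 * ∑ p ∈ Pr y X, (1 : ℝ) / (p : ℝ) ^ 2 ≤ (L / 10) ^ 2 * (1 / y) :=
          mul_le_mul h3 h1 (by positivity) (by positivity)
      _ = (L ^ 2 / y) / 100 := by ring
      _ ≤ 2 / 100 := by
          refine div_le_div_of_nonneg_right ?_ (by norm_num)
          rw [div_le_iff₀ hy0]
          linarith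
      _ ≤ μ := by linarith
  · intro R hR hc
    have h1 : ∀ p ∈ R, p ≤ X := fun p hp => (hyP p (Finset.mem_powerset.1 hR hp)).2.1
    calc ∏ p ∈ R, p ≤ ∏ _p ∈ R, X := Finset.prod_le_prod' h1
      _ = X ^ R.card := by rw [Finset.prod_const]
      _ ≤ X ^ K := Nat.pow_le_pow_right (by omega) hc
      _ = y ^ (m * K) := by rw [hX, ← pow_mul]
  · have h1 : ((y ^ (m * K) : ℕ) : ℝ) = Real.exp ((m * K : ℕ) * Real.log y) := by
      rw [Real.exp_nat_mul, Real.exp_log hy0]
      push_cast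
      ring
    rw [h1]
    refine Real.exp_le_exp.2 ?_
    push_cast
    calc (m : ℝ) * K * Real.log y ≤ m * (c₁ * (L / Real.log L)) * (2 * Real.log L) := by
          refine mul_le_mul (mul_le_mul_of_nonneg_left hKle' hm0.le) hly (by linarith) (by positivity)
      _ = θ * L := by
          rw [hc₁]
          field_simp
  · intro p hp
    obtain ⟨-, h2, h3⟩ := hyP p hp
    have h4 : Real.log p ≤ Real.log X := Real.log_le_log (by exact_mod_cast h3) (by exact_mod_cast h2)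
    rw [hlX] at h4
    refine h4.trans ?_
    have := mul_le_mul_of_nonneg_left hly hm0.le
    linarith
  · have h1 : (2 * Real.sqrt (6 + 8 * ∑ p ∈ (Icc 1 X).filter Nat.Prime, (1 : ℝ) / p)) ^ 2 ≤ (μ * S) ^ 2 := by
      rw [mul_pow, Real.sq_sqrt (by positivity)]
      refine le_trans ?_ haL
      refine le_trans ?_ hfin
      linarith
    exact (pow_le_pow_iff_left₀ (by positivity) haS two_ne_zero).1 h1
  · rw [← Real.sqrt_mul (by positivity)]
    refine (Real.sqrt_le_left haS).2 ?_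
    exact haL

end Pool.Agent.U196.SO
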