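import Pool.Agent.U196.SO.Stm
import Pool.Agent.U761.SZ.R2
import Pool.Agent.U761.SZ.PSET
import Pool.Agent.Q222.UM.MV2
import Pool.Agent.Q98.UM.EXT

/-!
# Project SO (helper196): inner products of Dirichlet polynomials; positivity
-/

set_option autoImplicit false

namespace Pool.Agent.U196.SO

open Filter Topology MeasureTheory Complex
open Pool.Agent.Q97.UM
open Pool.Agent.Q241.UM (rs Sq om rs_ne prc_ne)

noncomputable section

lemma pnorm (z w : ℂ) : ‖z + w‖ ^ 2 - ‖z - w‖ ^ 2 = 4 * (z * (starRingEnd ℂ) w).re := by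
  rw [← Complex.normSq_eq_norm_sq, ← Complex.normSq_eq_norm_sq, Complex.normSq_add, Complex.normSq_sub]
  ring

lemma psum (z w : ℂ) : ‖z + w‖ ^ 2 + ‖z - w‖ ^ 2 = 2 * (‖z‖ ^ 2 + ‖w‖ ^ 2) := by
  rw [← Complex.normSq_eq_norm_sq, ← Complex.normSq_eq_norm_sq, ← Complex.normSq_eq_norm_sq, ← Complex.normSq_eq_norm_sq,
    Complex.normSq_add, Complex.normSq_sub]
  ring

lemma dp_add' (M : ℕ) (f g : ℕ → ℂ) (t : ℝ) : dp M (fun n => f n + g n) t = dp M f t + dp M g t := by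
  unfold dp
  rw [← Finset.sum_add_distrib]
  exact Finset.sum_congr rfl fun n _ => by ring

lemma dp_sub' (M : ℕ) (f g : ℕ → ℂ) (t : ℝ) : dp M (fun n => f n - g n) t = dp M f t - dp M g t := by
  unfold dp
  rw [← Finset.sum_sub_distrib]
  exact Finset.sum_congr rfl fun n _ => by ring

/-- the inner product of coefficients -/
def ip (M : ℕ) (f g : ℕ → ℂ) : ℝ := ∑ n ∈ Finset.Icc 1 M, (f n * (starRingEnd ℂ) (g n)).re / n

lemma N2_diff (M : ℕ) (f g : ℕ → ℂ) : N2 M (fun n => f n + g n) - N2 M (fun n => f n - g n) = 4 * ip M f g := by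
  unfold N2 ip
  rw [← Finset.sum_sub_distrib, Finset.mul_sum]
  refine Finset.sum_congr rfl fun n _ => ?_
  rw [← sub_div, pnorm]
  ring

lemma N2_par (M : ℕ) (f g : ℕ → ℂ) : N2 M (fun n => f n + g n) + N2 M (fun n => f n - g n) = 2 * (N2 M f + N2 M g) := by
  unfold N2
  rw [← Finset.sum_add_distrib, ← Finset.sum_add_distrib, Finset.mul_sum]
  refine Finset.sum_congr rfl fun n _ => ?_
  rw [← add_div, psum]
  ring

/-- **mean values of products** -/
theorem pol : ∃ C₀ : ℝ, 1 ≤ C₀ ∧ ∀ (a b : ℝ), a ≤ b → ∀ (M : ℕ) (f g : ℕ → ℂ), 1 ≤ M →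
    |(∫ t in a..b, (dp M f t * (starRingEnd ℂ) (dp M g t)).re) - (b - a) * ip M f g| ≤
      C₀ * M * (1 + Real.log M) * (N2 M f + N2 M g) := by
  obtain ⟨C₀, hC₀, h⟩ := Pool.Agent.Q222.UM.t_MV2
  refine ⟨C₀, hC₀, fun a b hab M f g hM => ?_⟩
  have h1 := h a b hab M (fun n => f n + g n) hM
  have h2 := h a b hab M (fun n => f n - g n) hM
  have hc : ∀ f : ℕ → ℂ, Continuous (dp M f) := fun f => (Pool.Agent.Q84.UM.t_DPM.2.2 M f 0).2
  have e1 : (∫ t in a..b, ‖dp M (fun n => f n + g n) t‖ ^ 2) - (∫ t in a..b, ‖dp M (fun n => f n - g n) t‖ ^ 2) =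
      4 * ∫ t in a..b, (dp M f t * (starRingEnd ℂ) (dp M g t)).re := by
    have i1 : IntervalIntegrable (fun t => ‖dp M (fun n => f n + g n) t‖ ^ 2) volume a b := ((hc _).norm.pow 2).intervalIntegrable _ _
    have i2 : IntervalIntegrable (fun t => ‖dp M (fun n => f n - g n) t‖ ^ 2) volume a b := ((hc _).norm.pow 2).intervalIntegrable _ _
    rw [← intervalIntegral.integral_sub i1 i2, ← intervalIntegral.integral_const_mul]
    refine intervalIntegral.integral_congr fun t _ => ?_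
    rw [dp_add', dp_sub', pnorm]
  have e2 := N2_diff M f g
  have e3 := N2_par M f g
  set I1 := ∫ t in a..b, ‖dp M (fun n => f n + g n) t‖ ^ 2
  set I2 := ∫ t in a..b, ‖dp M (fun n => f n - g n) t‖ ^ 2
  set A1 := N2 M (fun n => f n + g n)
  set A2 := N2 M (fun n => f n - g n)
  have hM0 : (1 : ℝ) ≤ M := by exact_mod_cast hM
  have hE : 0 ≤ C₀ * M * (1 + Real.log M) := by
    have := Real.log_nonneg hM0
    positivity
  have hN : 0 ≤ N2 M f + N2 M g := by
    unfold N2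
    positivity
  set E := C₀ * M * (1 + Real.log M)
  rw [abs_le] at h1 h2 ⊢
  have hp : 0 ≤ E * (N2 M f + N2 M g) := mul_nonneg hE hN
  have h3 : E * A1 + E * A2 = 2 * (E * (N2 M f + N2 M g)) := by rw [← mul_add, e3]; ring
  have h4 : (b - a) * A1 - (b - a) * A2 = 4 * ((b - a) * ip M f g) := by rw [← mul_sub, e2]; ring
  constructor <;> linarith [h1.1, h1.2, h2.1, h2.2]

/-- the real resonator -/
lemma rs_real (P : Finset ℕ) (K : ℕ) (μ : ℝ) (hμ : 0 ≤ μ) (n : ℕ) : ∃ x : ℝ, 0 ≤ x ∧ rs P K μ n = (x : ℂ) := by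
  classical
  unfold rs
  split_ifs with h
  · exact ⟨μ ^ Pool.Agent.Q241.UM.om n, by positivity, rfl⟩
  · exact ⟨0, le_rfl, by simp⟩

/-- **positivity** -/
theorem posip {P : Finset ℕ} {K : ℕ} {μ : ℝ} (hμ : 0 ≤ μ) {X : ℕ} {q : ℕ → ℝ} {q₀ : ℝ}
    (hq0 : ∀ p ∈ P, q₀ ≤ q p) (hqs : ∀ n, q n ≠ 0 → IsPrimePow n) (hX : ∀ p ∈ P, p ≤ X) (M : ℕ) :
    q₀ * ip M (cv (prc X) (rs P K μ)) (rs P K μ) ≤ ip M (cv (fun n => (q n : ℂ)) (rs P K μ)) (rs P K μ) := by
  classical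
  unfold ip
  rw [Finset.mul_sum]
  refine Finset.sum_le_sum fun n hn => ?_
  have hn1 : 1 ≤ n := (Finset.mem_Icc.1 hn).1
  have hn0 : (0 : ℝ) < n := by exact_mod_cast hn1
  rw [← mul_div_assoc]
  refine div_le_div_of_nonneg_right ?_ hn0.le
  obtain ⟨x, hx, hxe⟩ := rs_real P K μ hμ n
  by_cases h0 : rs P K μ n = 0
  · rw [h0, map_zero, mul_zero, mul_zero, zero_re, mul_zero]
  obtain ⟨⟨hsq, hP⟩, -⟩ := rs_ne h0
  rw [hxe, Complex.conj_ofReal, Complex.mul_re, Complex.mul_re]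
  simp only [ofReal_re, ofReal_im, mul_zero, sub_zero]
  rw [← mul_assoc]
  refine mul_le_mul_of_nonneg_right ?_ hx
  unfold cv
  rw [Complex.re_sum, Complex.re_sum, Finset.mul_sum]
  refine Finset.sum_le_sum fun z hz => ?_
  rw [Nat.mem_divisorsAntidiagonal] at hz
  obtain ⟨y, hy, hye⟩ := rs_real P K μ hμ z.2
  rw [hye]
  have hdvd : z.1 ∣ n := ⟨z.2, hz.1.symm⟩
  have hz1 : Squarefree z.1 := hsq.squarefree_of_dvd hdvd
  by_cases hp : z.1.Prime
  · have hzP : z.1 ∈ P := hP (Nat.mem_primeFactors.2 ⟨hp, hdvd, hz.2⟩)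
    have e1 : prc X z.1 = 1 := by
      unfold prc
      rw [if_pos ⟨hp, hX _ hzP⟩]
    rw [e1, one_mul, ofReal_re, ← ofReal_mul, ofReal_re]
    exact mul_le_mul_of_nonneg_right (hq0 _ hzP) hy
  · have e1 : prc X z.1 = 0 := by
      unfold prc
      rw [if_neg fun h => hp h.1]
    have e2 : q z.1 = 0 := by
      by_contra h
      have h1 := hqs _ h
      rw [isPrimePow_nat_iff] at h1
      obtain ⟨p, k, hpp, hk, hpk⟩ := h1
      have h2 : k = 1 := by
        by_contra hk1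
        have h3 : p ^ 2 ∣ z.1 := by
          rw [← hpk]
          exact pow_dvd_pow p (by omega)
        have h4 : IsUnit p := hz1 p (by rw [← sq]; exact h3)
        exact hpp.one_lt.ne' (Nat.isUnit_iff.1 h4)
      rw [h2, pow_one] at hpk
      rw [← hpk] at hp
      exact hp hpp
    simp only [e1, e2]
    simp

/-- from the residual to the inner product -/
theorem ipres {M : ℕ} {f r : ℕ → ℂ} {a C : ℝ} (hC : 0 ≤ C) (h : N2 M (fun n => f n - a * r n) ≤ C * N2 M r) :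
    (a - Real.sqrt C) * N2 M r ≤ ip M f r := by
  have hN : 0 ≤ N2 M r := by unfold N2; positivity
  -- Cauchy's inequality in the form `-Re (u conj r) ≤ s |u|²/2 + |r|²/(2s)`
  rcases hC.eq_or_lt with h0 | hC0
  · -- `C = 0`
    have h1 : N2 M (fun n => f n - a * r n) ≤ 0 := by rw [← h0, zero_mul] at h; exact h
    have h2 : ∀ n ∈ Finset.Icc 1 M, f n = a * r n := by
      intro n hn
      have h3 : ∑ n ∈ Finset.Icc 1 M, ‖f n - a * r n‖ ^ 2 / (n : ℝ) = 0 := le_antisymm h1 (by positivity)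
      rw [Finset.sum_eq_zero_iff_of_nonneg (fun n _ => by positivity)] at h3
      have h4 := h3 n hn
      have hn0 : (0 : ℝ) < n := by exact_mod_cast (Finset.mem_Icc.1 hn).1
      rw [div_eq_zero_iff] at h4
      rcases h4 with h4 | h4
      · rw [sq_eq_zero_iff, norm_eq_zero, sub_eq_zero] at h4
        exact h4
      · exact absurd h4 hn0.ne'
    rw [← h0, Real.sqrt_zero, sub_zero]
    refine le_of_eq ?_
    unfold ip N2
    rw [Finset.mul_sum]
    refine Finset.sum_congr rfl fun n hn => ?_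
    rw [h2 n hn, mul_assoc, Complex.mul_conj, Complex.normSq_eq_norm_sq, ← ofReal_mul, ofReal_re]
    ring
  · set s := Real.sqrt C with hs
    have hs0 : 0 < s := Real.sqrt_pos.2 hC0
    have hs2 : s ^ 2 = C := Real.sq_sqrt hC
    have key : ∀ n ∈ Finset.Icc 1 M, (a - s) * (‖r n‖ ^ 2 / (n : ℝ)) ≤
        (f n * (starRingEnd ℂ) (r n)).re / n + (1 / (2 * s) * (‖f n - a * r n‖ ^ 2 / (n : ℝ)) - s / 2 * (‖r n‖ ^ 2 / (n : ℝ))) := by
      intro n hn
      have hn0 : (0 : ℝ) < n := by exact_mod_cast (Finset.mem_Icc.1 hn).1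
      set u := f n - a * r n with hu
      have e1 : (f n * (starRingEnd ℂ) (r n)).re = (u * (starRingEnd ℂ) (r n)).re + a * ‖r n‖ ^ 2 := by
        have : f n * (starRingEnd ℂ) (r n) = u * (starRingEnd ℂ) (r n) + a * (r n * (starRingEnd ℂ) (r n)) := by rw [hu]; ring
        rw [this, add_re, Complex.mul_conj, Complex.normSq_eq_norm_sq, ← ofReal_mul, ofReal_re]
      have h1 : -(‖u‖ * ‖r n‖) ≤ (u * (starRingEnd ℂ) (r n)).re := by
        have h2 := (abs_le.1 (Complex.abs_re_le_norm (u * (starRingEnd ℂ) (r n)))).1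
        rwa [norm_mul, RCLike.norm_conj] at h2
      have h2 : ‖u‖ * ‖r n‖ ≤ 1 / (2 * s) * ‖u‖ ^ 2 + s / 2 * ‖r n‖ ^ 2 := by
        have h3 : 0 ≤ (‖u‖ - s * ‖r n‖) ^ 2 / (2 * s) := by positivity
        have h4 : (‖u‖ - s * ‖r n‖) ^ 2 / (2 * s) = 1 / (2 * s) * ‖u‖ ^ 2 + s / 2 * ‖r n‖ ^ 2 - ‖u‖ * ‖r n‖ := by
          field_simp
          ring
        linarith
      rw [e1]
      have h5 : (a - s) * ‖r n‖ ^ 2 ≤ (u * (starRingEnd ℂ) (r n)).re + a * ‖r n‖ ^ 2 +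
          (1 / (2 * s) * ‖u‖ ^ 2 - s / 2 * ‖r n‖ ^ 2) := by nlinarith
      calc (a - s) * (‖r n‖ ^ 2 / (n : ℝ)) = ((a - s) * ‖r n‖ ^ 2) / n := by ring
        _ ≤ ((u * (starRingEnd ℂ) (r n)).re + a * ‖r n‖ ^ 2 + (1 / (2 * s) * ‖u‖ ^ 2 - s / 2 * ‖r n‖ ^ 2)) / n :=
            div_le_div_of_nonneg_right h5 hn0.le
        _ = _ := by ring
    have h1 := Finset.sum_le_sum key
    rw [← Finset.mul_sum, Finset.sum_add_distrib, Finset.sum_sub_distrib, ← Finset.mul_sum, ← Finset.mul_sum] at h1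
    have h2 : 1 / (2 * s) * N2 M (fun n => f n - a * r n) ≤ s / 2 * N2 M r := by
      calc 1 / (2 * s) * N2 M (fun n => f n - a * r n) ≤ 1 / (2 * s) * (C * N2 M r) :=
            mul_le_mul_of_nonneg_left h (by positivity)
        _ = s / 2 * N2 M r := by rw [← hs2]; field_simp
    unfold N2 at h2 ⊢
    unfold ip
    linarith

end

end Pool.Agent.U196.SO
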