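import Pool.Agent.U196.SO.Sgn
import Pool.Agent.U761.SZ.LD

/-!
# Project SO (helper196): the resonator
-/

set_option autoImplicit false

namespace Pool.Agent.U196.SO

open Filter Topology MeasureTheory Complex
open Pool.Agent.Q97.UM
open Pool.Agent.Q241.UM (rs Sq om rs_ne one_le_N2)
open Pool.Agent.U761.SZ (Pr tw_N2 dp_len)
open Pool.Agent.Q98.UM (supp_zero)

noncomputable section

lemma sqrt_div_log {L : ℝ} (hL : 0 ≤ L) (hl : 0 < Real.log L) :
    Real.sqrt (L / Real.log L) / Real.log L = Real.sqrt L / Real.log L ^ (3 / 2 : ℝ) := by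
  have h1 : Real.log L ^ (3 / 2 : ℝ) = Real.log L * Real.sqrt (Real.log L) := by
    rw [Real.sqrt_eq_rpow, show (3 / 2 : ℝ) = 1 + 1 / 2 by norm_num, Real.rpow_add hl, Real.rpow_one]
  have hs : 0 < Real.sqrt (Real.log L) := Real.sqrt_pos.2 hl
  rw [h1, Real.sqrt_div hL]
  field_simp

lemma tw_supp {σ : ℂ} {r : ℕ → ℂ} {N : ℕ} (h : ∀ n, r n ≠ 0 → 1 ≤ n ∧ n ≤ N) : ∀ n, Pool.Agent.U761.SZ.tw σ r n ≠ 0 → 1 ≤ n ∧ n ≤ N := by
  intro n hn
  refine h n fun h0 => hn ?_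
  unfold Pool.Agent.U761.SZ.tw
  rw [h0, mul_zero]

/-- **the resonator for the prime sum** -/
theorem reso (ψ₁ k₀ : ℝ → ℝ) (hK : Ker ψ₁ k₀) (δ : ℝ) (hδ : 0 < δ) (hδ1 : δ ≤ 1 / 100) (θ : ℝ) (hθ : 0 < θ) :
    ∃ c : ℝ, 0 < c ∧ ∀ᶠ T : ℝ in atTop, ∀ σ : ℝ, σ = 1 ∨ σ = -1 → ∃ (N : ℕ) (r : ℕ → ℂ), (N : ℝ) ≤ T ^ θ ∧
    (∀ n, r n ≠ 0 → 1 ≤ n ∧ n ≤ N) ∧ 0 < N2 N r ∧
    c * (Real.sqrt (Real.log T) / Real.log (Real.log T) ^ (3 / 2 : ℝ)) * (T * N2 N r) ≤
      σ * ∫ t in T..(2 * T), QS ψ₁ (δ * Real.log T) t * ‖dp N r t‖ ^ 2 := by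
  obtain ⟨C₀, hC₀, hpol⟩ := pol
  obtain ⟨m, hm1, hpar⟩ := par
  set θ' : ℝ := min θ (1 / 100) with hθ'
  have hθ'0 : 0 < θ' := lt_min hθ (by norm_num)
  have hθ'1 : θ' ≤ 1 / 100 := min_le_right _ _
  obtain ⟨c₁, hc₁, hpar⟩ := hpar θ' hθ'0
  have hm0 : (0 : ℝ) < m := by exact_mod_cast hm1
  have hψc : Continuous ψ₁ := hK.smooth.continuous
  obtain ⟨η, hη, hψ⟩ : ∃ η : ℝ, 0 < η ∧ ∀ u, |u| ≤ η → 1 / 2 ≤ ψ₁ u := by
    have h1 : ∀ᶠ u in 𝓝 (0 : ℝ), 1 / 2 < ψ₁ u := by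
      have := hψc.tendsto 0
      rw [hK.one] at this
      exact this.eventually (lt_mem_nhds (by norm_num))
    obtain ⟨ε, hε, h2⟩ := Metric.eventually_nhds_iff.1 h1
    refine ⟨ε / 2, by positivity, fun u hu => (h2 ?_).le⟩
    rw [Real.dist_eq, sub_zero]
    linarith
  -- eventual facts
  have e1 : ∀ᶠ L : ℝ in atTop, 2 * m * Real.log L ≤ min η 1 * (δ * L) := by
    have hmin : 0 < min η 1 := lt_min hη one_pos
    have h1 := (Real.isLittleO_log_id_atTop).bound (c := min η 1 * δ / (2 * m)) (by positivity)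
    filter_upwards [h1, eventually_ge_atTop 1] with L h1 hL
    rw [Real.norm_of_nonneg (Real.log_nonneg hL), id, Real.norm_of_nonneg (by linarith)] at h1
    calc 2 * m * Real.log L ≤ 2 * m * (min η 1 * δ / (2 * m) * L) := mul_le_mul_of_nonneg_left h1 (by positivity)
      _ = min η 1 * (δ * L) := by field_simp
  have e2 : ∀ᶠ L : ℝ in atTop, 1 ≤ Real.log L := Real.tendsto_log_atTop.eventually_ge_atTop 1
  have e3 : ∀ᶠ T : ℝ in atTop, 17 * C₀ ≤ c₁ / (16 * m) * T ^ (1 / 2 : ℝ) := by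
    have h1 := (tendsto_rpow_atTop (y := 1 / 2) (by norm_num)).eventually_ge_atTop (17 * C₀ / (c₁ / (16 * m)))
    filter_upwards [h1] with T h1
    rw [div_le_iff₀ (by positivity)] at h1
    linarith
  have e4 : ∀ᶠ L : ℝ in atTop, 1 ≤ Real.sqrt L / Real.log L ^ (3 / 2 : ℝ) := by
    have h1 := (isLittleO_log_rpow_rpow_atTop (s := 1 / 2) (3 / 2 : ℝ) (by norm_num)).bound (c := 1) (by norm_num)
    filter_upwards [h1, e2, eventually_ge_atTop 1] with L h1 h2 h3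
    have hl : 0 < Real.log L := by linarith
    rw [Real.norm_of_nonneg (by positivity), Real.norm_of_nonneg (by positivity), one_mul] at h1
    rw [le_div_iff₀ (by positivity), one_mul, Real.sqrt_eq_rpow]
    exact h1
  have hL := Real.tendsto_log_atTop
  refine ⟨c₁ / (16 * m), by positivity, ?_⟩
  filter_upwards [hL.eventually hpar, hL.eventually e1, hL.eventually e2, e3, hL.eventually e4, hL.eventually_ge_atTop 1,
    eventually_ge_atTop 16] with T hpar e1 e2 e3 e4 hL1 hT16 σ hσ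
  obtain ⟨y, K, μ, a, hK1, hμ, haS, h10, hμp, hsq, hprod, hlen, hlogp, hCa, hca⟩ := hpar
  have hT0 : 0 < T := by linarith
  have hT1 : (1 : ℝ) ≤ T := by linarith
  set L : ℝ := Real.log T with hLd
  have hL0 : 0 < L := by linarith
  set P := Pr y (y ^ m) with hP
  set N : ℕ := y ^ (m * K) with hN
  set X' : ℕ := y ^ m with hX'
  set D : ℝ := δ * L with hD
  have hD0 : 0 < D := by positivity
  set X : ℕ := ⌊Real.exp D⌋₊ with hX
  have hexpD : Real.exp D = T ^ δ := by rw [hD, hLd, Real.rpow_def_of_pos hT0, mul_comm]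
  have hXle : (X : ℝ) ≤ T ^ δ := by rw [← hexpD]; exact Nat.floor_le (Real.exp_pos _).le
  have hX1 : 1 ≤ X := by
    rw [hX]
    refine Nat.le_floor ?_
    rw [Nat.cast_one]
    exact Real.one_le_exp hD0.le
  have hPp : ∀ p ∈ P, p.Prime := by
    intro p hp
    simp only [hP, Pr, Finset.mem_filter] at hp
    exact hp.2.1
  have hPX : ∀ p ∈ P, p ≤ X' := by
    intro p hp
    simp only [hP, Pr, Finset.mem_filter, Finset.mem_Icc] at hp
    exact hp.1.2
  have hN1 : 1 ≤ N := by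
    have := hprod ∅ (Finset.empty_mem_powerset _) (by simp)
    simpa using this
  have hNT : (N : ℝ) ≤ T ^ θ' := by
    refine hlen.trans (le_of_eq ?_)
    rw [hLd, Real.rpow_def_of_pos hT0, mul_comm]
  have hX'1 : 1 ≤ X' := by
    rcases Nat.eq_zero_or_pos y with h0 | h0
    · exfalso
      rw [hN, h0, zero_pow (by positivity)] at hN1
      omega
    · exact Nat.one_le_pow _ _ h0
  set r₀ := rs P K μ with hr₀
  have hrs : ∀ n, r₀ n ≠ 0 → 1 ≤ n ∧ n ≤ N := fun n h => rs_supp hprod h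
  set q : ℕ → ℝ := qc ψ₁ D with hq
  set qq : ℕ → ℂ := fun n => (q n : ℂ) with hqq
  set M : ℕ := X * N with hM
  have hNM : N ≤ M := Nat.le_mul_of_pos_left N (by omega)
  have hN2 : 1 ≤ N2 N r₀ := one_le_N2 hN1
  have hN20 : 0 < N2 N r₀ := by linarith
  set σ' : ℂ := (σ : ℂ) with hσ'
  have hσn : ‖σ'‖ = 1 := by
    rw [hσ', Complex.norm_real]
    rcases hσ with h | h <;> rw [h] <;> simp
  have hσσ : σ * σ = 1 := by rcases hσ with h | h <;> rw [h] <;> norm_num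
  set r := Pool.Agent.U761.SZ.tw σ' r₀ with hr
  have hrsupp : ∀ n, r n ≠ 0 → 1 ≤ n ∧ n ≤ N := tw_supp hrs
  have hN2r : N2 N r = N2 N r₀ := tw_N2 hσn N r₀
  refine ⟨N, r, ?_, hrsupp, by rw [hN2r]; exact hN20, ?_⟩
  · exact hNT.trans (Real.rpow_le_rpow_of_exponent_le hT1 (min_le_left _ _))
  -- the inner product
  have hip0 : a / 2 * N2 N r₀ ≤ ip N (cv (prc X') r₀) r₀ := by
    have h1 := Pool.Agent.U761.SZ.res2 hPp (X := X') hμ haS h10 hK1 hμp hsq hprod hPX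
    have h2 : N ≤ X' * N := Nat.le_mul_of_pos_left N (by omega)
    rw [← hr₀, ← N2_len h2 hrs] at h1
    have h3 := ipres (by positivity) h1
    rw [ip_len _ h2 hrs, N2_len h2 hrs] at h3
    refine le_trans (mul_le_mul_of_nonneg_right ?_ hN20.le) h3
    linarith
  have hipM : 1 / (4 * m * Real.log L) * (a / 2 * N2 N r₀) ≤ ip M (cv qq r₀) r₀ := by
    have hq0 : ∀ p ∈ P, 1 / (4 * m * Real.log L) ≤ q p := by
      intro p hp
      have hpr := hPp p hp
      have hl := hlogp p hp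
      have hp2 : (2 : ℝ) ≤ p := by exact_mod_cast hpr.two_le
      have hlp : 0 < Real.log p := Real.log_pos (by linarith)
      have hmin : min η 1 ≤ η := min_le_left _ _
      have hmin1 : min η 1 ≤ 1 := min_le_right _ _
      have h1 : Real.log p ≤ min η 1 * D := hl.trans e1
      have hpX : p ≤ X := by
        rw [hX]
        refine Nat.le_floor ?_
        rw [← Real.log_le_iff_le_exp (by linarith)]
        exact h1.trans (mul_le_of_le_one_left hD0.le hmin1)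
      have h2 : 1 / 2 ≤ ψ₁ (Real.log p / D) := by
        refine hψ _ ?_
        rw [abs_of_nonneg (by positivity), div_le_iff₀ hD0]
        exact h1.trans (mul_le_mul_of_nonneg_right hmin hD0.le)
      rw [hq]
      unfold qc
      rw [if_pos hpX, ArithmeticFunction.vonMangoldt_apply_prime hpr]
      have h3 : Real.log p / Real.log p ^ 2 = 1 / Real.log p := by field_simp
      rw [h3]
      have h4 : 1 / (2 * m * Real.log L) ≤ 1 / Real.log p := one_div_le_one_div_of_le hlp hl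
      have hlL : 0 < Real.log L := by linarith
      calc 1 / (4 * m * Real.log L) = 1 / (2 * m * Real.log L) * (1 / 2) := by field_simp; norm_num
        _ ≤ 1 / Real.log p * ψ₁ (Real.log p / D) := mul_le_mul h4 h2 (by norm_num) (by positivity)
    have h1 := posip hμ.le hq0 (qc_pp ψ₁ D) hPX M (K := K)
    rw [← hr₀] at h1
    refine le_trans (mul_le_mul_of_nonneg_left ?_ (by positivity)) h1
    rw [ip_len _ hNM hrs]
    exact hip0
  have hips : ip M (cv qq r) r = σ * ip M (cv qq r₀) r₀ := ip_sign (qc_pp ψ₁ D) M hσ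
  -- the integral
  have hqs : ∀ n, qq n ≠ 0 → 1 ≤ n ∧ n ≤ X := by
    intro n hn
    refine qc_supp ψ₁ D n fun h => hn ?_
    simp only [hqq, hq, h, ofReal_zero]
  have hDP := Pool.Agent.Q84.UM.t_DPM
  have hprodt : ∀ t, dp X qq t * dp N r t = dp M (cv qq r) t := fun t =>
    hDP.1 X N qq r t (supp_zero hqs) (supp_zero hrsupp)
  have hrM : ∀ t, dp M r t = dp N r t := fun t => dp_len hNM hrsupp t
  have hint : (∫ t in T..(2 * T), QS ψ₁ D t * ‖dp N r t‖ ^ 2) =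
      ∫ t in T..(2 * T), (dp M (cv qq r) t * (starRingEnd ℂ) (dp M r t)).re := by
    refine intervalIntegral.integral_congr fun t _ => ?_
    show QS ψ₁ D t * ‖dp N r t‖ ^ 2 = _
    rw [QS_eq, ← hprodt t, hrM t, mul_assoc, Complex.mul_conj, Complex.normSq_eq_norm_sq, Complex.re_mul_ofReal]
  have hM1 : 1 ≤ M := hN1.trans hNM
  have hM1r : (1 : ℝ) ≤ M := by exact_mod_cast hM1
  have hMT : (M : ℝ) ≤ T ^ (1 / 50 : ℝ) := by
    rw [hM]
    push_cast
    calc (X : ℝ) * N ≤ T ^ δ * T ^ θ' := mul_le_mul hXle hNT (Nat.cast_nonneg _) (by positivity)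
      _ = T ^ (δ + θ') := (Real.rpow_add hT0 _ _).symm
      _ ≤ T ^ (1 / 50 : ℝ) := Real.rpow_le_rpow_of_exponent_le hT1 (by linarith)
  have hM14 : (M : ℝ) ≤ T ^ (1 / 4 : ℝ) := hMT.trans (Real.rpow_le_rpow_of_exponent_le hT1 (by norm_num))
  have hp := hpol T (2 * T) (by linarith) M (cv qq r) r hM1
  have hN2M : N2 M r = N2 N r₀ := by rw [N2_len hNM hrsupp, hN2r]
  have hXM : X ≤ M := Nat.le_mul_of_pos_right X (by omega)
  have hXMr : (X : ℝ) ≤ M := by exact_mod_cast hXM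
  have hcv : N2 M (cv qq r) ≤ 16 * (M : ℝ) ^ 2 * N2 N r₀ := by
    have h1 := (Pool.Agent.Q84.UM.t_MVL T hT16 M hM14 (cv qq r)).1
    have h2 := (Pool.Agent.Q84.UM.t_MVL T hT16 M hM14 r).2
    have hc : ∀ f : ℕ → ℂ, Continuous (dp M f) := fun f => (hDP.2.2 M f 0).2
    have h3 : (∫ t in T..(2 * T), ‖dp M (cv qq r) t‖ ^ 2) ≤ ∫ t in T..(2 * T), 4 * (M : ℝ) ^ 2 * ‖dp M r t‖ ^ 2 := by
      refine intervalIntegral.integral_mono_on (by linarith) (((hc _).norm.pow 2).intervalIntegrable _ _)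
        ((((hc _).norm.pow 2).const_mul _).intervalIntegrable _ _) fun t _ => ?_
      rw [← hprodt t, hrM t, norm_mul, mul_pow]
      refine mul_le_mul_of_nonneg_right ?_ (sq_nonneg _)
      have h4 := dp_qc_le hK.bd D t
      calc ‖dp X qq t‖ ^ 2 ≤ (2 * (X : ℝ)) ^ 2 := pow_le_pow_left₀ (norm_nonneg _) h4 2
        _ ≤ (2 * (M : ℝ)) ^ 2 := pow_le_pow_left₀ (by positivity) (by linarith) 2
        _ = 4 * (M : ℝ) ^ 2 := by ring
    rw [intervalIntegral.integral_const_mul] at h3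
    rw [hN2M] at h2
    have h5 : T / 2 * N2 M (cv qq r) ≤ 4 * (M : ℝ) ^ 2 * (2 * T * N2 N r₀) :=
      h1.trans (h3.trans (mul_le_mul_of_nonneg_left h2 (by positivity)))
    have h6 : T / 2 * N2 M (cv qq r) ≤ T / 2 * (16 * (M : ℝ) ^ 2 * N2 N r₀) := by
      refine h5.trans (le_of_eq ?_)
      ring
    exact le_of_mul_le_mul_left h6 (by positivity)
  rw [hN2M] at hp
  have herr : C₀ * M * (1 + Real.log M) * (N2 M (cv qq r) + N2 N r₀) ≤ c₁ / (16 * m) * T * N2 N r₀ := by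
    have h1 : 1 + Real.log M ≤ M := by
      have := Real.log_le_sub_one_of_pos (show (0 : ℝ) < M by linarith)
      linarith
    have h0 : 0 ≤ Real.log M := Real.log_nonneg hM1r
    have h2 : N2 M (cv qq r) + N2 N r₀ ≤ 17 * (M : ℝ) ^ 2 * N2 N r₀ := by
      have : 1 * N2 N r₀ ≤ (M : ℝ) ^ 2 * N2 N r₀ := mul_le_mul_of_nonneg_right (one_le_pow₀ hM1r) hN20.le
      linarith
    have hC0 : 0 ≤ C₀ := by linarith
    have h3 : C₀ * M * (1 + Real.log M) * (N2 M (cv qq r) + N2 N r₀) ≤ C₀ * M * M * (17 * (M : ℝ) ^ 2 * N2 N r₀) := by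
      refine mul_le_mul (mul_le_mul_of_nonneg_left h1 (by positivity)) h2 ?_ (by positivity)
      have : 0 ≤ N2 M (cv qq r) := by unfold N2; positivity
      linarith
    refine h3.trans ?_
    have h4 : (M : ℝ) ^ 4 ≤ T ^ (1 / 2 : ℝ) := by
      calc (M : ℝ) ^ 4 ≤ (T ^ (1 / 50 : ℝ)) ^ 4 := pow_le_pow_left₀ (by positivity) hMT 4
        _ = T ^ (4 / 50 : ℝ) := by
            rw [← Real.rpow_natCast, ← Real.rpow_mul hT0.le]
            norm_num
        _ ≤ T ^ (1 / 2 : ℝ) := Real.rpow_le_rpow_of_exponent_le hT1 (by norm_num)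
    have h5 : T ^ (1 / 2 : ℝ) * T ^ (1 / 2 : ℝ) = T := by
      rw [← Real.rpow_add hT0]
      norm_num
    calc C₀ * M * M * (17 * (M : ℝ) ^ 2 * N2 N r₀) = 17 * C₀ * (M : ℝ) ^ 4 * N2 N r₀ := by ring
      _ ≤ (c₁ / (16 * m) * T ^ (1 / 2 : ℝ)) * T ^ (1 / 2 : ℝ) * N2 N r₀ := by
          refine mul_le_mul_of_nonneg_right (mul_le_mul e3 h4 (by positivity) (by positivity)) hN20.le
      _ = c₁ / (16 * m) * (T ^ (1 / 2 : ℝ) * T ^ (1 / 2 : ℝ)) * N2 N r₀ := by ring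
      _ = _ := by rw [h5]
  have hV : c₁ / (8 * m) * (Real.sqrt L / Real.log L ^ (3 / 2 : ℝ)) * N2 N r₀ ≤ ip M (cv qq r₀) r₀ := by
    refine le_trans ?_ hipM
    have hlL : 0 < Real.log L := by linarith
    rw [← sqrt_div_log hL0.le hlL]
    calc c₁ / (8 * m) * (Real.sqrt (L / Real.log L) / Real.log L) * N2 N r₀ =
        1 / (4 * m * Real.log L) * ((c₁ * Real.sqrt (L / Real.log L)) / 2 * N2 N r₀) := by field_simp; norm_num
      _ ≤ _ := by
          refine mul_le_mul_of_nonneg_left (mul_le_mul_of_nonneg_right ?_ hN20.le) (by positivity)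
          linarith
  rw [hint, hN2r]
  rw [hips] at hp
  set I := ∫ t in T..(2 * T), (dp M (cv qq r) t * (starRingEnd ℂ) (dp M r t)).re
  set V := Real.sqrt L / Real.log L ^ (3 / 2 : ℝ)
  have h1 : |σ * (I - (2 * T - T) * (σ * ip M (cv qq r₀) r₀))| ≤ c₁ / (16 * m) * T * N2 N r₀ := by
    rw [abs_mul]
    have : |σ| = 1 := by rcases hσ with h | h <;> rw [h] <;> simp
    rw [this, one_mul]
    exact hp.trans herr
  have h2 : σ * (I - (2 * T - T) * (σ * ip M (cv qq r₀) r₀)) = σ * I - T * ip M (cv qq r₀) r₀ := by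
    linear_combination -(T * ip M (cv qq r₀) r₀) * hσσ
  rw [h2] at h1
  have h3 := (abs_le.1 h1).1
  have h4 : T * (c₁ / (8 * m) * V * N2 N r₀) ≤ T * ip M (cv qq r₀) r₀ := mul_le_mul_of_nonneg_left hV hT0.le
  have h5 : c₁ / (16 * m) * T * N2 N r₀ ≤ c₁ / (16 * m) * T * N2 N r₀ * V := le_mul_of_one_le_right (by positivity) e4
  have h6 : c₁ / (8 * m) = 2 * (c₁ / (16 * m)) := by field_simp; norm_num
  rw [h6] at h4
  linarith

end

end Pool.Agent.U196.SO
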