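import Pool.Agent.U196.SO.Pol
import Pool.Agent.U196.SO.Par

/-!
# Project SO (helper196): the sign of the resonator, the coefficients of the prime sum
-/

set_option autoImplicit false

namespace Pool.Agent.U196.SO

open Filter Topology MeasureTheory Complex
open Pool.Agent.Q97.UM
open Pool.Agent.Q241.UM (rs Sq om rs_ne)

noncomputable section

lemma prime_of_dvd {q : ℕ → ℝ} (hqs : ∀ n, q n ≠ 0 → IsPrimePow n) {n d : ℕ} (hsq : Squarefree n) (hdvd : d ∣ n) (hq : q d ≠ 0) :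
    d.Prime := by
  have h1 := hqs _ hq
  have hz1 : Squarefree d := hsq.squarefree_of_dvd hdvd
  rw [isPrimePow_nat_iff] at h1
  obtain ⟨p, k, hpp, hk, hpk⟩ := h1
  have h2 : k = 1 := by
    by_contra hk1
    have h3 : p ^ 2 ∣ d := by
      rw [← hpk]
      exact pow_dvd_pow p (by omega)
    have h4 : IsUnit p := hz1 p (by rw [← sq]; exact h3)
    exact hpp.one_lt.ne' (Nat.isUnit_iff.1 h4)
  rw [h2, pow_one] at hpk
  rw [← hpk]
  exact hpp

/-- **the sign** -/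
theorem ip_sign {P : Finset ℕ} {K : ℕ} {μ : ℝ} {q : ℕ → ℝ} (hqs : ∀ n, q n ≠ 0 → IsPrimePow n) (M : ℕ) {σ : ℝ} (hσ : σ = 1 ∨ σ = -1) :
    ip M (cv (fun n => (q n : ℂ)) (Pool.Agent.U761.SZ.tw σ (rs P K μ))) (Pool.Agent.U761.SZ.tw σ (rs P K μ)) =
      σ * ip M (cv (fun n => (q n : ℂ)) (rs P K μ)) (rs P K μ) := by
  classical
  have hσ2 : (σ : ℂ) * σ = 1 := by
    rcases hσ with h | h <;> rw [h] <;> simp
  unfold ip
  rw [Finset.mul_sum]
  refine Finset.sum_congr rfl fun n hn => ?_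
  rw [← mul_div_assoc]
  congr 1
  by_cases h0 : rs P K μ n = 0
  · unfold Pool.Agent.U761.SZ.tw
    rw [h0, mul_zero, map_zero, mul_zero, mul_zero, zero_re, mul_zero]
  obtain ⟨⟨hsq, -⟩, -⟩ := rs_ne h0
  have e1 : cv (fun n => (q n : ℂ)) (Pool.Agent.U761.SZ.tw σ (rs P K μ)) n =
      (σ : ℂ) ^ (ArithmeticFunction.cardFactors n) * σ * cv (fun n => (q n : ℂ)) (rs P K μ) n := by
    unfold cv
    rw [Finset.mul_sum]
    refine Finset.sum_congr rfl fun z hz => ?_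
    rw [Nat.mem_divisorsAntidiagonal] at hz
    by_cases hq : q z.1 = 0
    · simp only [hq, ofReal_zero, zero_mul, mul_zero]
    · have hp := prime_of_dvd hqs hsq ⟨z.2, hz.1.symm⟩ hq
      have hz2 : z.2 ≠ 0 := fun h => hz.2 (by rw [← hz.1, h, mul_zero])
      have e2 : ArithmeticFunction.cardFactors n = 1 + ArithmeticFunction.cardFactors z.2 := by
        rw [← hz.1, ArithmeticFunction.cardFactors_mul hp.ne_zero hz2, ArithmeticFunction.cardFactors_apply_prime hp]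
      unfold Pool.Agent.U761.SZ.tw
      rw [e2, pow_add, pow_one]
      linear_combination -((σ : ℂ) ^ (ArithmeticFunction.cardFactors z.2) * (q z.1 : ℂ) * rs P K μ z.2) * hσ2
  rw [e1]
  unfold Pool.Agent.U761.SZ.tw
  rw [map_mul, map_pow, Complex.conj_ofReal]
  have hp : (σ : ℂ) ^ (ArithmeticFunction.cardFactors n) * (σ : ℂ) ^ (ArithmeticFunction.cardFactors n) = 1 := by
    rw [← mul_pow, hσ2, one_pow]
  have e3 : (σ : ℂ) ^ (ArithmeticFunction.cardFactors n) * σ * cv (fun n => (q n : ℂ)) (rs P K μ) n *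
      ((σ : ℂ) ^ (ArithmeticFunction.cardFactors n) * (starRingEnd ℂ) (rs P K μ n)) =
      (σ : ℂ) * (cv (fun n => (q n : ℂ)) (rs P K μ) n * (starRingEnd ℂ) (rs P K μ n)) := by
    linear_combination (σ : ℂ) * (cv (fun n => (q n : ℂ)) (rs P K μ) n * (starRingEnd ℂ) (rs P K μ n)) * hp
  rw [e3, Complex.re_ofReal_mul]

/-- the coefficients of the prime sum -/
def qc (ψ₁ : ℝ → ℝ) (D : ℝ) (n : ℕ) : ℝ :=
  if n ≤ ⌊Real.exp D⌋₊ then ArithmeticFunction.vonMangoldt n / Real.log n ^ 2 * ψ₁ (Real.log n / D) else 0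

lemma qc_supp (ψ₁ : ℝ → ℝ) (D : ℝ) (n : ℕ) (h : qc ψ₁ D n ≠ 0) : 1 ≤ n ∧ n ≤ ⌊Real.exp D⌋₊ := by
  unfold qc at h
  split_ifs at h with h1
  · refine ⟨?_, h1⟩
    rcases Nat.eq_zero_or_pos n with h0 | h0
    · exfalso
      apply h
      rw [h0]
      simp
    · exact h0
  · exact absurd rfl h

lemma qc_pp (ψ₁ : ℝ → ℝ) (D : ℝ) (n : ℕ) (h : qc ψ₁ D n ≠ 0) : IsPrimePow n := by
  unfold qc at h
  split_ifs at h with h1
  · have h2 : ArithmeticFunction.vonMangoldt n ≠ 0 := by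
      intro h3
      apply h
      rw [h3]
      simp
    exact ArithmeticFunction.vonMangoldt_ne_zero_iff.1 h2
  · exact absurd rfl h

lemma qc_le {ψ₁ : ℝ → ℝ} (hb : ∀ u, |ψ₁ u| ≤ 1) (D : ℝ) (n : ℕ) : |qc ψ₁ D n| ≤ 2 := by
  unfold qc
  split_ifs with h
  · rcases Nat.lt_or_ge n 2 with h0 | h0
    · have : ArithmeticFunction.vonMangoldt n = 0 := by
        interval_cases n <;> simp
      rw [this]
      simp
    · have hn2 : (2 : ℝ) ≤ n := by exact_mod_cast h0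
      have hl : Real.log 2 ≤ Real.log n := Real.log_le_log (by norm_num) hn2
      have hl2 : (1 : ℝ) / 2 ≤ Real.log 2 := by
        have := Real.log_two_gt_d9
        linarith
      have hln : 0 < Real.log n := by linarith
      rw [abs_mul, abs_div, abs_of_nonneg ArithmeticFunction.vonMangoldt_nonneg, abs_of_nonneg (sq_nonneg _)]
      have h1 : ArithmeticFunction.vonMangoldt n / Real.log n ^ 2 ≤ 2 := by
        rw [div_le_iff₀ (by positivity)]
        have h2 := ArithmeticFunction.vonMangoldt_le_log (n := n)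
        nlinarith
      have h0 : 0 ≤ ArithmeticFunction.vonMangoldt n / Real.log n ^ 2 := div_nonneg ArithmeticFunction.vonMangoldt_nonneg (by positivity)
      calc _ ≤ 2 * (1 : ℝ) := mul_le_mul h1 (hb _) (abs_nonneg _) (by norm_num)
        _ = 2 := by norm_num
  · simp

lemma QS_eq (ψ₁ : ℝ → ℝ) (D t : ℝ) : QS ψ₁ D t = (dp ⌊Real.exp D⌋₊ (fun n => (qc ψ₁ D n : ℂ)) t).re := by
  unfold QS dp
  congr 1
  have h1 : Finset.Icc 2 ⌊Real.exp D⌋₊ ⊆ Finset.Icc 1 ⌊Real.exp D⌋₊ := Finset.Icc_subset_Icc_left (by norm_num)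
  rw [← Finset.sum_subset h1]
  · refine Finset.sum_congr rfl fun n hn => ?_
    have : qc ψ₁ D n = ArithmeticFunction.vonMangoldt n / Real.log n ^ 2 * ψ₁ (Real.log n / D) := by
      unfold qc
      rw [if_pos (Finset.mem_Icc.1 hn).2]
    simp only [this]
  · intro n hn hn2
    rw [Finset.mem_Icc] at hn hn2
    have : n = 1 := by omega
    rw [this]
    unfold qc
    simp

lemma dp_qc_le {ψ₁ : ℝ → ℝ} (hb : ∀ u, |ψ₁ u| ≤ 1) (D : ℝ) (t : ℝ) :
    ‖dp ⌊Real.exp D⌋₊ (fun n => (qc ψ₁ D n : ℂ)) t‖ ≤ 2 * ⌊Real.exp D⌋₊ := by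
  unfold dp
  refine (norm_sum_le _ _).trans ?_
  have h1 : ∀ n ∈ Finset.Icc 1 ⌊Real.exp D⌋₊, ‖(qc ψ₁ D n : ℂ) * (n : ℂ) ^ (-(1 / 2 + t * I))‖ ≤ 2 := by
    intro n hn
    have hn1 : 1 ≤ n := (Finset.mem_Icc.1 hn).1
    have hn0 : (1 : ℝ) ≤ n := by exact_mod_cast hn1
    rw [norm_mul, Complex.norm_real, Real.norm_eq_abs]
    have h2 : ‖(n : ℂ) ^ (-(1 / 2 + t * I))‖ ≤ 1 := by
      have e : (n : ℂ) = ((n : ℝ) : ℂ) := by norm_cast
      rw [e, Complex.norm_cpow_eq_rpow_re_of_pos (by linarith)]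
      have : (-(1 / 2 + (t : ℂ) * I)).re = -(1 / 2) := by simp
      rw [this]
      exact Real.rpow_le_one_of_one_le_of_nonpos hn0 (by norm_num)
    calc _ ≤ 2 * (1 : ℝ) := mul_le_mul (qc_le hb D n) h2 (norm_nonneg _) (by norm_num)
      _ = 2 := by norm_num
  refine (Finset.sum_le_sum h1).trans (le_of_eq ?_)
  rw [Finset.sum_const, Nat.card_Icc, nsmul_eq_mul]
  push_cast
  ring

/-- support of the resonator -/
lemma rs_supp {P : Finset ℕ} {K N : ℕ} {μ : ℝ} (hN : ∀ S ∈ P.powerset, S.card ≤ K → ∏ p ∈ S, p ≤ N) {n : ℕ}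
    (h : rs P K μ n ≠ 0) : 1 ≤ n ∧ n ≤ N := by
  obtain ⟨⟨hsq, hP⟩, hK⟩ := rs_ne h
  refine ⟨Nat.one_le_iff_ne_zero.2 hsq.ne_zero, ?_⟩
  have h1 := hN n.primeFactors (Finset.mem_powerset.2 hP) hK
  rwa [Nat.prod_primeFactors_of_squarefree hsq] at h1

lemma ip_len {M N : ℕ} (f : ℕ → ℂ) {r : ℕ → ℂ} (hNM : N ≤ M) (hr : ∀ n, r n ≠ 0 → 1 ≤ n ∧ n ≤ N) : ip M f r = ip N f r := by
  unfold ip
  symm
  refine Finset.sum_subset (Finset.Icc_subset_Icc_right hNM) fun n _ hn => ?_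
  by_cases h : r n = 0
  · rw [h, map_zero, mul_zero, zero_re, zero_div]
  · exact absurd (Finset.mem_Icc.mpr (hr n h)) hn

lemma N2_len {M N : ℕ} {r : ℕ → ℂ} (hNM : N ≤ M) (hr : ∀ n, r n ≠ 0 → 1 ≤ n ∧ n ≤ N) : N2 M r = N2 N r := by
  unfold N2
  symm
  refine Finset.sum_subset (Finset.Icc_subset_Icc_right hNM) fun n _ hn => ?_
  by_cases h : r n = 0
  · rw [h, norm_zero]
    simp
  · exact absurd (Finset.mem_Icc.mpr (hr n h)) hn

end

end Pool.Agent.U196.SO
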