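import Pool.Agent.U761.SZ.THS
import Pool.Agent.Q257.UM.VAV

set_option autoImplicit false

/-!
# Project SO (helper196): the first antiderivative of the argument of zeta, large values of both signs, without any hypothesis

THEOREM. `S_1(u) = ∫_100^u S(v) dv`. There is `c > 0` such that for all large `T` there are `u, u' ∈ [T, 3T]` with
`S_1(u) ≥ c √(log T) / (log log T)^(3/2)` and `S_1(u') ≤ -c √(log T) / (log log T)^(3/2)`. (Known on RH; without RH the minus sign only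
with the exponent `1/3` in place of `1/2`, Tsang 1986.)

Proof. (B) `π S_1(u) = Φ(u) + O(1)`, `Φ(u) = ∫_{1/2}^{3/2} log|ζ(x + iu)| dx`. (A) Littlewood's lemma with a smooth weight on each line `a`,
integrated over `a ∈ [1/2, 3/2]`: the smooth average of `Φ` at `t` at the scale `1/(δ log T)` is the prime sum `QS` up to `O(1 + SS)`, `SS` the
sum over the zeros of the library (its mean relative to every Dirichlet polynomial is bounded). (C) a resonator (helper761's) for `QS`.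

The statements of the packages are `def S_xxx : Prop`; `J_xxx` is the statement of the job.
-/

namespace Pool.Agent.U196.SO

open Filter Topology MeasureTheory Complex
open Pool.Agent.Q97.UM Pool.Agent.Q257.UM.VA
open Pool.Agent.U761.SZ (aS AI ell)

noncomputable section

/-- `∫_{1/2}^{3/2} log|ζ(x + iu)| dx` -/
def Phi (u : ℝ) : ℝ := ∫ x in (1 / 2 : ℝ)..(3 / 2), Real.log ‖riemannZeta ⟨x, u⟩‖

/-- the prime sum: real part of `∑ Λ(n) / (log n)^2 · ψ₁(log n / D) n^{-1/2-it}` -/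
def QS (ψ₁ : ℝ → ℝ) (D t : ℝ) : ℝ := (∑ n ∈ Finset.Icc 2 ⌊Real.exp D⌋₊,
  ((ArithmeticFunction.vonMangoldt n / Real.log n ^ 2 * ψ₁ (Real.log n / D) : ℝ) : ℂ) * (n : ℂ) ^ (-(1 / 2 + t * I))).re

/-- LINE: the smooth average of `log|ζ|` on the line `a`. PROOF. Copy the proof of `Pool.Agent.Q257.UM.VA.t_VAV` (file Q257/UM/VAV.lean, 100
lines; it is the case `a = 1/2`). `U1, U2` are chosen before `a`. Use `S_LIT` with this `a` and `b = 3/2`, the finite set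
`Z = (ZD T).filter (fun s => a < s.re ∧ U1 < s.im ∧ s.im < U2)`. Changes: (1) `one_zero`: for `1/2 ≤ a < s.re` the integral `∫ σ in a..s.re` has
the same bound (length `s.re - a ≤ s.re - 1/2`, and `exp(D (s.re - σ)) ≤ exp(D (s.re - 1/2))`). (2) `horiz` is already for every
`σ ∈ [1/2, 3/2]`. (3) instead of `prime_part`: with `V r = ∫ y in U1..U2, Gz y * kap ψ₁ D (r + (y - t) I)` the right edge is
`-∫ σ in a..(3/2), Re V(3/2 - σ) = -∫ r in 0..(3/2 - a), Re (V r)`, and `‖V r + SP ψ₁ D t r‖ ≤ C` by `far` (file VAVb.lean), so it is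
`∫ r in 0..(3/2 - a), Re SP` up to `C`. -/
def S_LINE : Prop := ∀ ψ₁ k₀ : ℝ → ℝ, Ker ψ₁ k₀ → ∀ δ : ℝ, 0 < δ → δ ≤ 1 / 8 → ∃ C : ℝ, 0 ≤ C ∧ ∀ᶠ T : ℝ in atTop, ∀ t : ℝ,
  T / 4 ≤ t → t ≤ 8 * T → ∃ U1 U2 : ℝ, t - T / 8 - 1 ≤ U1 ∧ U1 ≤ t - T / 8 ∧ t + T / 8 ≤ U2 ∧ U2 ≤ t + T / 8 + 1 ∧
    ∀ a : ℝ, 1 / 2 ≤ a → a < 3 / 2 →
      IntervalIntegrable (fun u => δ * Real.log T * k₀ (δ * Real.log T * (u - t)) * Real.log ‖riemannZeta ⟨a, u⟩‖) volume U1 U2 ∧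
      |(∫ u in U1..U2, δ * Real.log T * k₀ (δ * Real.log T * (u - t)) * Real.log ‖riemannZeta ⟨a, u⟩‖) -
        ∫ r in (0 : ℝ)..(3 / 2 - a), (SP ψ₁ (δ * Real.log T) t r).re| ≤ C * (1 + SS δ T t)

/-- job LINE -/
def J_LINE : Prop := S_KB → S_LIT → S_LINE

/-- AVER: integration over the line. PROOF. Fix `T, t, U1, U2` from LINE (`U1 ≥ T/8 - 1 > 1`), `κ(u) = δ log T k₀(δ log T (u - t)) ≥ 0`
(`Ker.nonneg`, `Ker.cont`). (1) Fubini for `f(a, u) = κ(u) log|ζ(a + iu)|` on `[1/2, 3/2] × [U1, U2]`: `|ζ| ≤ e^M` there (continuity on a compact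
set without the pole), so `g = κ(u) (M - log|ζ|) ≥ 0` (at a zero Lean's `log 0 = 0`, take `M ≥ 0`) is measurable (`U761.SZ.zeta_meas`, as in
`U761.SZ.ld_meas`), for every `a < 3/2` integrable in `u` with `∫ g du = M ∫ κ - I(a)`, `I(a)` bounded on `[1/2, 3/2)` by LINE. So `g` is
integrable on the product (`MeasureTheory.integrable_prod_iff`) and `MeasureTheory.integral_integral_swap` /
`intervalIntegral` versions apply to `f = κ M - g`. It also gives the integrability of `u ↦ κ(u) Phi(u)`.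
(2) `∫_{1/2}^{3/2} ∫_0^{3/2 - a} Re SP(r) dr da`: `SP ψ₁ D t r = ∑ Λ(n) ψ₁(log n / D) n^{-3/2-it} e^{r log n}`; for each `n ≥ 2`, `x = log n`:
`∫_{1/2}^{3/2} ∫_0^{3/2 - a} e^{rx} dr da = (e^x - 1 - x)/x²`. So the double integral is `QS - Re ∑ Λ(n)/x² ψ₁ n^{-3/2-it} (1 + x)`, and the last sum is
at most `∑ Λ(n) n^{-3/2} (1 + x)/x² ≤ C` (compare `PP_cmp` in VAVb.lean: `‖gt 0 n‖ = Λ(n) n^{-3/2}`, `B1`). -/
def S_AVER : Prop := ∀ ψ₁ k₀ : ℝ → ℝ, Ker ψ₁ k₀ → ∀ δ : ℝ, 0 < δ → δ ≤ 1 / 8 → ∃ C : ℝ, 0 ≤ C ∧ ∀ᶠ T : ℝ in atTop, ∀ t : ℝ,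
  T / 4 ≤ t → t ≤ 8 * T → ∃ U1 U2 : ℝ, t - T / 8 - 1 ≤ U1 ∧ U1 ≤ t - T / 8 ∧ t + T / 8 ≤ U2 ∧ U2 ≤ t + T / 8 + 1 ∧
    IntervalIntegrable (fun u => δ * Real.log T * k₀ (δ * Real.log T * (u - t)) * Phi u) volume U1 U2 ∧
    |(∫ u in U1..U2, δ * Real.log T * k₀ (δ * Real.log T * (u - t)) * Phi u) - QS ψ₁ (δ * Real.log T) t| ≤ C * (1 + SS δ T t)

/-- job AVER -/
def J_AVER : Prop := S_LINE → S_AVER

/-- FTC: the horizontal integral of the argument. PROOF. On the box `[1/2, 3/2] × [100, u]` `ζ` has finitely many zeros (the box lemmas of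
`Pool.Agent.Q121.UM` (file Q121/UM/LIT.lean): `decomp`, `box_int`: `ζ'/ζ` is integrable on the box; how to obtain the finite set of zeros: see
`H370.Zf`, `mem_ZD`, or compactness); Fubini: `∫_100^u AI = ∫_{1/2}^{3/2} ∫_100^u Im (ζ'/ζ)(x + iv) dv dx`, and for every `x` which is not the
real part of a zero in the box `d/dv log|ζ(x + iv)| = Re (i ζ'/ζ) = -Im (ζ'/ζ)(x + iv)` (`Pool.Agent.Q121.UM.hd_log`), so the inner integral
is `log|ζ(x + 100 i)| - log|ζ(x + iu)|`. To have the box closed inside a larger one choose `a = 0`, `b = 2` etc. as needed; all `u ≥ 100`,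
also ordinates of zeros (then use the box up to `u + 1` or the a.e. statement in `x`). -/
def S_FTC : Prop := ∀ u : ℝ, 100 ≤ u → IntervalIntegrable AI volume 100 u ∧ ∫ v in (100 : ℝ)..u, AI v = Phi 100 - Phi u

/-- EDGE: PROOF. `ell s = LSeries lc s`, `lc n = Λ(n)/log n`. With `lc2 n = Λ(n)/(log n)²`: `LSeries.logMul lc2 = lc` (compare
`U761.SZ.logMul_lc`), so `d/dv LSeries lc2 (3/2 + iv) = -i ell(3/2 + iv)` (`LSeries_hasDerivAt`, compare `U761.SZ.ell_deriv`), and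
`|LSeries lc2 (3/2 + iv)| ≤ ∑ Λ(n) n^{-3/2}/(log 2)²`. -/
def S_EDGE : Prop := ∃ C : ℝ, 0 ≤ C ∧ ∀ u : ℝ, 100 ≤ u → |∫ v in (100 : ℝ)..u, (ell ⟨3 / 2, v⟩).im| ≤ C

/-- RESO: the resonator (helper196 does this one) -/
def S_RESO : Prop := ∀ (ψ₁ k₀ : ℝ → ℝ), Ker ψ₁ k₀ → ∀ δ : ℝ, 0 < δ → δ ≤ 1 / 100 → ∀ θ : ℝ, 0 < θ → ∃ c : ℝ, 0 < c ∧
  ∀ᶠ T : ℝ in atTop, ∀ σ : ℝ, σ = 1 ∨ σ = -1 → ∃ (N : ℕ) (r : ℕ → ℂ), (N : ℝ) ≤ T ^ θ ∧ 0 < N2 N r ∧
    c * (Real.sqrt (Real.log T) / Real.log (Real.log T) ^ (3 / 2 : ℝ)) * (T * N2 N r) ≤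
      σ * ∫ t in T..(2 * T), QS ψ₁ (δ * Real.log T) t * ‖dp N r t‖ ^ 2

end

end Pool.Agent.U196.SO
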