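import Pool.Agent.U196.SO.Stm
import Pool.Agent.U575.MU.Nev4

set_option autoImplicit false

/-!
# Project SL (helper196): Lindelof's hypothesis and the antiderivative of the argument, one-sided criterion

THEOREM. Lindelof's hypothesis holds if and only if for every `ε > 0`: `S_1(u) ≤ ε log u` for all large `u` (ONLY an upper bound).

Proof of the direction from `S_1` to Lindelof. (G1) Littlewood's lemma on the line `a` with the Gaussian weight `exp(-k (u - t)²)`;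
(G2) integrated over `a ∈ [1/2, 3/2]`: the Gaussian mean of `Φ` around `t` is `2π ∑ m(ρ) W(ρ)` over the zeros right of `1/2`, up to `O(1)`, with
`W(ρ) = ∫_{1/2}^β ∫_a^β Re exp(k (ρ - σ - it)²) dσ da`; (G3) `W(ρ) ≥ (β - 1/2)²/12` for `|γ - t| ≤ 1`, `W ≥ 0` for `k |γ - t| ≤ 1`,
`|W| ≤ exp(-k (γ - t)²)`; (G4) the zeros with `k |γ - t| > 1` contribute at most `η log t`, `η → 0` as `k → 0`. So an upper bound
`Φ(u) ≤ ε log u` gives `∑_{|γ - t| ≤ 1} m(ρ) (β - 1/2)² = o(log t)`, and Backlund's criterion applies (`Pool.Agent.U575.MU.LH_iff_pts 0 0`).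
-/

namespace Pool.Agent.U196.SO

open Filter Topology MeasureTheory Complex
open Pool.Agent.Q97.UM Pool.Agent.Q257.UM.VA

noncomputable section

/-- the Gaussian kernel, real on the imaginary axis -/
def gk (k : ℝ) (z : ℂ) : ℂ := cexp ((k : ℂ) * z ^ 2)

/-- the zeros right of `1/2` in the window -/
def Zw (t U1 U2 : ℝ) : Finset ℂ := (ZD t).filter (fun s => 1 / 2 < s.re ∧ U1 < s.im ∧ s.im < U2)

/-- the weight of a zero on the line `a`; it is `0` when `s.re ≤ a` -/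
def wl (k t a : ℝ) (s : ℂ) : ℝ := ∫ σ in a..(max a s.re), (gk k (s - (σ + t * I))).re

/-- GLINE. PROOF. Copy of `Pool.Agent.U196.SO.line` (file Pool/Agent/U196/SO/LINEb.lean, 190 lines; main, compiles) with the kernel
`κ = gk k` in place of `kap ψ₁ D` and `T = t`. `S_LIT` (`Pool.Agent.Q121.UM.t_LIT`) with `F = riemannZeta`, `κ = gk k`, this `a`, `b = 3/2`, `c = U1`,
`d = U2`, `Z = (ZD t).filter (fun s => a < s.re ∧ U1 < s.im ∧ s.im < U2)`; for `y` real `gk k (y I) = exp(-k y²)`. The four terms: (1) right edge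
`|∫ exp(-k(y-t)²) log|ζ(3/2+iy)|| ≤ B0 √(π/k)` (`log_bd`, `integral_gaussian`); (2) `∫_a^{3/2} |∫ Gz y gk k ((3/2-σ) + (y-t)I) dy| dσ ≤ B1 e^k √(π/k)`
(`Gz_norm`, `‖gk k (x+yI)‖ = exp(k (x²-y²))`, no prime sum is needed here); (3) the zeros: exactly `2π ∑_{s ∈ Z} mult · ∫ σ in a..s.re` `= 2π ∑_{s ∈ Zw} mz · wl`
(`mz s = H370.mult riemannZeta s` by `rfl`; zeros of `Zw` with `s.re ≤ a` have `wl = 0`); (4) horizontals: `|ζ'/ζ(x + i U1)| ≤ Cg (log V)²`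
(`H370.good_height H370.good_zeta`) times `‖gk‖ ≤ e^k exp(-k (t/8)²)`, bounded for large `t`. -/
def S_GLINE : Prop := ∀ k : ℝ, 0 < k → k ≤ 1 → ∃ C : ℝ, 0 ≤ C ∧ ∀ᶠ t : ℝ in atTop, ∃ U1 U2 : ℝ,
  t - t / 8 - 1 ≤ U1 ∧ U1 ≤ t - t / 8 ∧ t + t / 8 ≤ U2 ∧ U2 ≤ t + t / 8 + 1 ∧ ∀ a : ℝ, 1 / 2 ≤ a → a < 3 / 2 →
    IntervalIntegrable (fun u => Real.exp (-(k * (u - t) ^ 2)) * Real.log ‖riemannZeta ⟨a, u⟩‖) volume U1 U2 ∧
    |(∫ u in U1..U2, Real.exp (-(k * (u - t) ^ 2)) * Real.log ‖riemannZeta ⟨a, u⟩‖) -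
      2 * Real.pi * ∑ s ∈ Zw t U1 U2, (mz s : ℝ) * wl k t a s| ≤ C

/-- GAVER. PROOF. Copy of `Pool.Agent.U492.SO.t_AVER` (file Pool/Agent/U492/SO/AVER.lean): the same Fubini argument for the weight
`exp(-k (u - t)²)` in place of `δ log T k₀(δ log T (u - t))`; for fixed `t` the function `a ↦ ∑ m(s) wl k t a s` is bounded and
continuous on `[1/2, 3/2]` (`wl k t a s = ∫ σ in a..(max a s.re)` with a continuous integrand), and
`∫ a in 1/2..3/2, ∑ m(s) wl k t a s = ∑ m(s) ∫ a in 1/2..3/2, wl k t a s`. -/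
def S_GAVER : Prop := ∀ k : ℝ, 0 < k → k ≤ 1 → ∃ C : ℝ, 0 ≤ C ∧ ∀ᶠ t : ℝ in atTop, ∃ U1 U2 : ℝ,
  t - t / 8 - 1 ≤ U1 ∧ U1 ≤ t - t / 8 ∧ t + t / 8 ≤ U2 ∧ U2 ≤ t + t / 8 + 1 ∧
    IntervalIntegrable (fun u => Real.exp (-(k * (u - t) ^ 2)) * Phi u) volume U1 U2 ∧
    |(∫ u in U1..U2, Real.exp (-(k * (u - t) ^ 2)) * Phi u) -
      2 * Real.pi * ∑ s ∈ Zw t U1 U2, (mz s : ℝ) * ∫ a in (1 / 2 : ℝ)..(3 / 2), wl k t a s| ≤ C

/-- job GAVER -/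
def J_GAVER : Prop := S_GLINE → S_GAVER

/-- GW: the weights (helper196 does this one). -/
def S_GW : Prop := ∀ (k t : ℝ) (s : ℂ), 0 < k → k ≤ 1 → 1 / 2 < s.re → s.re < 1 →
  (|s.im - t| ≤ 1 → (s.re - 1 / 2) ^ 2 / 12 ≤ ∫ a in (1 / 2 : ℝ)..(3 / 2), wl k t a s) ∧
  (k * |s.im - t| ≤ 1 → 0 ≤ ∫ a in (1 / 2 : ℝ)..(3 / 2), wl k t a s) ∧
  |∫ a in (1 / 2 : ℝ)..(3 / 2), wl k t a s| ≤ Real.exp (-(k * (s.im - t) ^ 2))

/-- GTAIL: the distant zeros. PROOF. `Pool.Agent.Q149.UM.count_near` (file Q149/UM/LOC1.lean): `∑_{s ∈ AA T x} m(s) ≤ C log T` for `4 ≤ x ≤ 16 T`,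
`AA T x` = the zeros of `ZD T` with `|s.im - x| ≤ 1`; take `T = t`. Every `s` of the sum has `s.im ∈ [t + j, t + j + 1]` for an integer `j` with
`|j| ≥ 1/k - 1`, and then `exp(-k (s.im - t)²) ≤ exp(-(|j| - 1))` as `k |s.im - t| > 1` (so `k (s.im - t)² ≥ |s.im - t| ≥ |j| - 1`); so the sum is at most
`C log t · 2 ∑_{j ≥ 1/k - 1} exp(-(j - 1))`, which is at most `C' exp(-1/k) log t`. (Zeros with `s.im < 5`: at most `C log t` of them, each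
with weight `≤ exp(-(t - 5))`.) Choose `k` with `C' exp(-1/k) ≤ η`. -/
def S_GTAIL : Prop := ∀ η : ℝ, 0 < η → ∃ k : ℝ, 0 < k ∧ k ≤ 1 ∧ ∀ᶠ t : ℝ in atTop,
  ∑ s ∈ (ZD t).filter (fun s => 1 < k * |s.im - t|), (mz s : ℝ) * Real.exp (-(k * (s.im - t) ^ 2)) ≤ η * Real.log t

/-- LHR: Lindelof's bound right of the line. PROOF. `Pool.Agent.U575.MU.LH_local` (file Nev3.lean) on the line `1/2`, `|ζ| ≤ A` on the
line `3` (`DH31.zeta_bounds`), `|ζ(s)| ≤ |s|^2`-type growth (`Pool.Agent.H388LH.zeta_growth`), and the local maximum principle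
`Pool.Agent.U575.MU.local_max` (file Rect.lean) in the box `1/2 ≤ Re s ≤ 3`, `|Im s - T| ≤ A`, with `A` so large that `2/cosh(A/(5/2)) · P ≤ δ log T`;
compare the proof of `Pool.Agent.U575.MU.reg_zeta` / `zeta_law` in Zeta.lean. -/
def S_LHR : Prop := Pool.Agent.U575.MU.LH → ∀ ε : ℝ, 0 < ε → ∃ T₀ : ℝ, ∀ T : ℝ, T₀ ≤ T → ∀ x : ℝ, 1 / 2 ≤ x → x ≤ 3 / 2 →
  ‖riemannZeta ⟨x, T⟩‖ ≤ T ^ ε

end

end Pool.Agent.U196.SO
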